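import Pool.Agent.Helper5.FM.Assembly

set_option autoImplicit false

/-!
# FM-A: the statement for polynomials
-/

namespace Pool.Agent.Helper5.FM

open Polynomial Pool.Agent.Helper32.DZ

/-- the integral points of the curves `y^2 = f(x)`, `f` of degree `d`, separable, coefficients at most `H`,
leading coefficient not in `E` -/
def PolPts (d : ℕ) (E : Finset ℤ) (H : ℕ) : Set (ℤ[X] × ℤ × ℤ) :=
  {p | p.1.natDegree = d ∧ (∀ i, |p.1.coeff i| ≤ (H : ℤ)) ∧ p.1.leadingCoeff ∉ E ∧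
    (p.1.map (Int.castRingHom ℚ)).Separable ∧ p.2.2 ^ 2 = p.1.eval p.2.1}

theorem good_of_sep {d : ℕ} {f : ℤ[X]} (hd : 1 ≤ d) (hf : f.natDegree = d)
    (hs : (f.map (Int.castRingHom ℚ)).Separable) : Good (fun i : Fin (d + 1) => f.coeff i) := by
  have hf0 : f ≠ 0 := by
    rintro rfl
    rw [natDegree_zero] at hf
    omega
  have hlead : f.coeff d ≠ 0 := by
    rw [← hf]
    exact leadingCoeff_ne_zero.2 hf0
  obtain ⟨p, hp⟩ : ∃ p : ℂ[X], p = f.map (Int.castRingHom ℂ) := ⟨_, rfl⟩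
  have hinj : Function.Injective (Int.castRingHom ℂ) := Int.cast_injective
  have hdeg : p.natDegree = d := by
    rw [hp, natDegree_map_eq_of_injective hinj, hf]
  have hlc : p.leadingCoeff = (f.coeff d : ℂ) := by
    rw [leadingCoeff, hdeg, hp, coeff_map]
    rfl
  have hsp : p.Splits := IsAlgClosed.splits p
  have hsep : p.Separable := by
    have h1 : p = (f.map (Int.castRingHom ℚ)).map (algebraMap ℚ ℂ) := by
      rw [hp, map_map]
      congr 1
    rw [h1]
    exact hs.map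
  have hnd : p.roots.Nodup := nodup_roots hsep
  refine ⟨by simpa using hlead, ?_⟩
  have hcard : p.roots.toFinset.card = d := by
    rw [Multiset.toFinset_card_of_nodup hnd, ← hsp.natDegree_eq_card_roots, hdeg]
  let e := (Finset.equivFinOfCardEq hcard).symm
  refine ⟨fun i => (e i : ℂ), fun i j hij => e.injective (Subtype.ext hij), ?_⟩
  intro z
  have h2 : ∑ i : Fin (d + 1), ((f.coeff (i : ℕ) : ℤ) : ℂ) * z ^ (i : ℕ) = p.eval z := by
    rw [eval_eq_sum_range, hdeg, Finset.sum_range]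
    refine Finset.sum_congr rfl fun i _ => ?_
    rw [hp, coeff_map]
    rfl
  rw [h2, hsp.eval_eq_prod_roots, hlc]
  simp only [Fin.val_last]
  congr 1
  have h1 : ∏ i, (z - (e i : ℂ)) = ∏ r : p.roots.toFinset, (z - (r : ℂ)) :=
    Equiv.prod_comp e (fun r : p.roots.toFinset => z - (r : ℂ))
  rw [h1, Finset.prod_coe_sort p.roots.toFinset (fun r => z - r)]
  rw [Finset.prod, Multiset.toFinset_val, Multiset.dedup_eq_self.2 hnd]

/-- the tuple of a polynomial with a point -/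
def tup (d : ℕ) (p : ℤ[X] × ℤ × ℤ) : (Fin (d + 1) → ℤ) × ℤ × ℤ :=
  (fun i => p.1.coeff i, p.2.1, p.2.2)

theorem pol_le (d : ℕ) (hd : 1 ≤ d) (E : Finset ℤ) (H : ℕ) (hf : (Pts d E H).Finite) :
    (PolPts d E H).Finite ∧ (PolPts d E H).ncard ≤ (Pts d E H).ncard := by
  have h1 : ∀ p ∈ PolPts d E H, tup d p ∈ Pts d E H := by
    rintro ⟨f, x, y⟩ ⟨h1, h2, h3, h4, h5⟩
    simp only at h1 h2 h3 h4 h5
    refine ⟨fun i => h2 _, good_of_sep hd h1 h4, ?_, ?_⟩
    · show f.coeff ((Fin.last d : Fin (d + 1)) : ℕ) ∉ E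
      rw [Fin.val_last, ← h1]
      exact h3
    · show y ^ 2 = ∑ i : Fin (d + 1), f.coeff (i : ℕ) * x ^ (i : ℕ)
      rw [h5, eval_eq_sum_range, h1, Finset.sum_range]
  have h2 : Set.InjOn (tup d) (PolPts d E H) := by
    rintro ⟨f, x, y⟩ hp ⟨g, x', y'⟩ hq h
    obtain ⟨h3, h4⟩ := Prod.mk.inj h
    obtain ⟨h5, h6⟩ := Prod.mk.inj h4
    refine Prod.ext ?_ (Prod.ext h5 h6)
    have hf : f.natDegree = d := hp.1
    have hg : g.natDegree = d := hq.1
    refine Polynomial.ext fun n => ?_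
    rcases Nat.lt_or_ge d n with hn | hn
    · rw [coeff_eq_zero_of_natDegree_lt (by rw [hf]; exact hn),
        coeff_eq_zero_of_natDegree_lt (by rw [hg]; exact hn)]
    · exact congrFun h3 ⟨n, by omega⟩
  refine ⟨Set.Finite.of_injOn h1 h2 hf, Set.ncard_le_ncard_of_injOn (tup d) h1 h2 hf⟩

/-- the first moment, from the bound for inequivalent points -/
theorem first_moment (d : ℕ) (hd : 3 ≤ d) (C0 C1 c : ℝ) (hC0 : 0 < C0) (hC1 : 0 < C1) (hc : 0 < c)
    (h : ∀ H : ℕ, 2 ≤ H → ∃ E : Finset ℤ, (Even d → E = ∅) ∧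
      (E.card : ℝ) ≤ C1 * H * (Real.log H) ^ (-c) ∧
      ClassBd d E H (C0 * (H : ℝ) ^ (d + 1) * (Real.log H) ^ (-c))) :
    ∃ C : ℝ, 0 < C ∧ ∀ H : ℕ, 2 ≤ H → ∃ E : Finset ℤ, (Even d → E = ∅) ∧
      (E.card : ℝ) ≤ C * H / (Real.log H) ^ c ∧ (PolPts d E H).Finite ∧
      ((PolPts d E H).ncard : ℝ) ≤ C * (H : ℝ) ^ (d + 1) / (Real.log H) ^ c := by
  obtain ⟨C, hC, hass⟩ := assembly d hd C0 c hC0 hc
  refine ⟨C + 2 * C1, by linarith, fun H hH => ?_⟩
  have hHr : (2 : ℝ) ≤ H := by exact_mod_cast hH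
  have hL : 0 < Real.log H := Real.log_pos (by linarith)
  have hLc : 0 < (Real.log H) ^ c := Real.rpow_pos_of_pos hL _
  obtain ⟨E, h1, h2, h3⟩ := h H hH
  obtain ⟨h4, h5⟩ := hass H E hH h3
  obtain ⟨h6, h7⟩ := pol_le d (by omega) _ H h4
  refine ⟨symE E, fun he => ?_, ?_, h6, ?_⟩
  · rw [h1 he]
    rfl
  · have h8 : ((symE E).card : ℝ) ≤ 2 * E.card := by exact_mod_cast card_symE E
    rw [Real.rpow_neg hL.le, ← div_eq_mul_inv] at h2
    calc ((symE E).card : ℝ) ≤ 2 * (C1 * H / (Real.log H) ^ c) := h8.trans (by linarith)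
      _ = 2 * C1 * H / (Real.log H) ^ c := by ring
      _ ≤ (C + 2 * C1) * H / (Real.log H) ^ c := by
          refine div_le_div_of_nonneg_right ?_ hLc.le
          exact mul_le_mul_of_nonneg_right (by linarith) (by linarith)
  · have h8 : ((PolPts d (symE E) H).ncard : ℝ) ≤ (Pts d (symE E) H).ncard := by exact_mod_cast h7
    rw [Real.rpow_neg hL.le, ← div_eq_mul_inv] at h5
    refine h8.trans (h5.trans ?_)
    refine div_le_div_of_nonneg_right ?_ hLc.le
    exact mul_le_mul_of_nonneg_right (by linarith) (by positivity)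

end Pool.Agent.Helper5.FM
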