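import Pool.Agent.Helper38.FM.Point

set_option autoImplicit false

/-!
# FM stage 2: the property `PtOf` under a rational base change

If `s P' = gᵗ P g`, `s R' = gᵗ R g`, then the point `x` of `(P, R)` is a point of `(P', R')`, with
`κ' s^(N-1) = (det g)^2 κ`.
-/

namespace Pool.Agent.Helper5.FM

open Polynomial Matrix Pool.Agent.Helper32.DZ Pool.Agent.Helper32.FM Pool.Agent.Helper38.FM

theorem ptOf_base {N : ℕ} (P R P' R' g : Matrix (Fin N) (Fin N) ℤ) (s : ℤ) (hs : s ≠ 0)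
    (hP : s • P' = gᵀ * P * g) (hR : s • R' = gᵀ * R * g) (κ κ' x : ℤ)
    (hκ : s ^ (N - 1) * κ' = g.det ^ 2 * κ) (h : PtOf P R κ x) : PtOf P' R' κ' x := by
  obtain ⟨w, hw⟩ := h
  obtain ⟨G, hG⟩ : ∃ G : Matrix (Fin N) (Fin N) ℤ[X], G = g.map (C : ℤ → ℤ[X]) := ⟨_, rfl⟩
  have hdet : G.det = C g.det := by
    rw [hG]
    exact (RingHom.map_det (C : ℤ →+* ℤ[X]) g).symm
  have hsmul : (C s : ℤ[X]) • pm P' R' = pm (gᵀ * P * g) (gᵀ * R * g) := by
    rw [← hP, ← hR]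
    ext1 i j
    simp only [pm, Matrix.sub_apply, Matrix.smul_apply, Matrix.map_apply, smul_eq_mul, map_mul]
    ring
  refine ⟨fun i => ∑ j, g j i * w j, ?_⟩
  have hv : (fun i => (C (∑ j, g j i * w j) : ℤ[X])) = Gᵀ *ᵥ (fun i => (C (w i) : ℤ[X])) := by
    funext i
    rw [Matrix.mulVec, dotProduct, map_sum]
    refine Finset.sum_congr rfl fun j _ => ?_
    rw [C_mul, hG]
    rfl
  rw [hv]
  obtain ⟨V, hV⟩ : ∃ V : Fin N → ℤ[X], V = fun i => C (w i) := ⟨_, rfl⟩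
  rw [← hV] at hw ⊢
  -- the form of the conjugated pencil
  have h1 : (Gᵀ *ᵥ V) ⬝ᵥ ((pm (gᵀ * P * g) (gᵀ * R * g)).adjugate *ᵥ (Gᵀ *ᵥ V)) =
      (G.det * G.det) * (V ⬝ᵥ ((pm P R).adjugate *ᵥ V)) := by
    rw [pm_conj, ← hG, Matrix.adjugate_mul_distrib, Matrix.adjugate_mul_distrib]
    have h3 : (G.adjugate * ((pm P R).adjugate * Gᵀ.adjugate)) *ᵥ (Gᵀ *ᵥ V) =
        G.det • (G.adjugate *ᵥ ((pm P R).adjugate *ᵥ V)) := by
      rw [Matrix.mulVec_mulVec, Matrix.mul_assoc, Matrix.mul_assoc, Matrix.adjugate_mul,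
        Matrix.det_transpose, Matrix.mul_smul, Matrix.mul_one, Matrix.mul_smul, Matrix.smul_mulVec,
        Matrix.mulVec_mulVec]
    rw [h3, dotProduct_smul, Matrix.mulVec_transpose, ← Matrix.dotProduct_mulVec,
      Matrix.mulVec_mulVec, Matrix.mul_adjugate, Matrix.smul_mulVec, Matrix.one_mulVec,
      dotProduct_smul, smul_smul, smul_eq_mul]
  have h2 : (pm (gᵀ * P * g) (gᵀ * R * g)).adjugate =
      (C s : ℤ[X]) ^ (N - 1) • (pm P' R').adjugate := by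
    rw [← hsmul, Matrix.adjugate_smul, Fintype.card_fin]
  rw [h2, Matrix.smul_mulVec, dotProduct_smul, smul_eq_mul, hw, hdet] at h1
  have hCs : (C s : ℤ[X]) ^ (N - 1) ≠ 0 := pow_ne_zero _ (by rwa [Ne, C_eq_zero])
  refine mul_left_cancel₀ hCs ?_
  rw [h1, ← mul_assoc, ← mul_assoc, ← C_mul, ← C_mul, ← C_pow, ← C_mul, hκ, sq]

end Pool.Agent.Helper5.FM
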