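import Pool.Agent.Helper5.FM.Digit2
import Pool.Agent.Helper32.FM.ClassCard
import Pool.Agent.Helper32.DZ.Defs

set_option autoImplicit false

/-!
# FM-A: assembly

From a bound for the number of inequivalent points to a bound for the number of all integral points of all curves.
-/

namespace Pool.Agent.Helper5.FM

open Pool.Agent.Helper32.FM Pool.Agent.Helper32.DZ

/-- the bound for pairwise inequivalent points -/
def ClassBd (d : ℕ) (E : Finset ℤ) (H : ℕ) (M : ℝ) : Prop :=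
  ∀ T : Finset ((Fin (d + 1) → ℤ) × ℤ),
    (∀ p ∈ T, (∀ i, |p.1 i| ≤ (H : ℤ)) ∧ Good p.1 ∧ p.1 (Fin.last d) ∉ E ∧
      ∃ y : ℤ, y ^ 2 = ∑ i, p.1 i * p.2 ^ (i : ℕ)) →
    (∀ (a : Fin (d + 1) → ℤ) (x x' : ℤ), (a, x) ∈ T → (a, x') ∈ T →
      ∀ θ : Fin d → ℂ, Roots H a θ → CRel θ x x' → x = x') →
    (T.card : ℝ) ≤ M

/-- roots of a good tuple -/
theorem roots_of_good {d H : ℕ} {a : Fin (d + 1) → ℤ} (h : ∀ i, |a i| ≤ (H : ℤ)) (hg : Good a) :
    ∃ θ : Fin d → ℂ, Roots H a θ := by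
  obtain ⟨h0, e, he, hev⟩ := hg
  exact ⟨e, ⟨h, h0, he, hev⟩⟩

/-- `CRel` does not depend on the order of the roots -/
theorem crel_of_roots {d H : ℕ} {a : Fin (d + 1) → ℤ} {θ θ' : Fin d → ℂ} (h : Roots H a θ)
    (h' : Roots H a θ') {x x' : ℤ} (hc : CRel θ' x x') : CRel θ x x' := by
  obtain ⟨q, hq⟩ := hc
  refine ⟨q, fun t => ?_⟩
  have h1 : (a (Fin.last d) : ℂ) * ∏ i, (θ t - θ' i) = 0 := by
    rw [← h'.eval, h.eval, Finset.prod_eq_zero (Finset.mem_univ t) (sub_self _), mul_zero]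
  have h2 : ∏ i, (θ t - θ' i) = 0 := by
    rcases mul_eq_zero.1 h1 with h3 | h3
    · exact absurd (by exact_mod_cast h3) h.lead
    · exact h3
  obtain ⟨s, _, hs⟩ := Finset.prod_eq_zero_iff.1 h2
  rw [sub_eq_zero.1 hs]
  exact hq s

/-- pairs `(a, x)` above the threshold -/
theorem big_card (d : ℕ) (hd : 3 ≤ d) : ∃ K N : ℕ, 1 ≤ K ∧ ∀ (H : ℕ) (E : Finset ℤ) (M : ℝ),
    ClassBd d E H M → ∀ S : Finset ((Fin (d + 1) → ℤ) × ℤ),
      (∀ p ∈ S, (∀ i, |p.1 i| ≤ (H : ℤ)) ∧ Good p.1 ∧ p.1 (Fin.last d) ∉ E ∧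
        Thr K H p.1 p.2 ∧ ∃ y : ℤ, y ^ 2 = ∑ i, p.1 i * p.2 ^ (i : ℕ)) →
      (S.card : ℝ) ≤ N * M := by
  classical
  obtain ⟨K, N, hK, htr⟩ := transversal d hd
  refine ⟨K, N, hK, fun H E M hM S hS => ?_⟩
  have h1 : ∀ a : Fin (d + 1) → ℤ, ∃ T : Finset ℤ,
      T ⊆ (S.filter (fun p => p.1 = a)).image Prod.snd ∧
      (∀ x ∈ T, ∀ y ∈ T, ∀ θ : Fin d → ℂ, Roots H a θ → CRel θ x y → x = y) ∧
      ((S.filter (fun p => p.1 = a)).image Prod.snd).card ≤ N * T.card := by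
    intro a
    by_cases ha : a ∈ S.image Prod.fst
    · obtain ⟨p, hp, rfl⟩ := Finset.mem_image.1 ha
      obtain ⟨hb, hg, -, -, -⟩ := hS p hp
      obtain ⟨θ, hθ⟩ := roots_of_good hb hg
      obtain ⟨T, hT, h2, h3⟩ := htr H p.1 θ hθ
        ((S.filter (fun q => q.1 = p.1)).image Prod.snd) (by
          intro x hx
          obtain ⟨q, hq, rfl⟩ := Finset.mem_image.1 hx
          obtain ⟨hq1, hq2⟩ := Finset.mem_filter.1 hq
          rw [← hq2]
          exact (hS q hq1).2.2.2.1)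
      exact ⟨T, hT, fun x hx y hy θ' hθ' hc => h2 x hx y hy (crel_of_roots hθ hθ' hc), h3⟩
    · refine ⟨∅, Finset.empty_subset _, fun x hx => absurd hx (Finset.notMem_empty x), ?_⟩
      have h2 : S.filter (fun p => p.1 = a) = ∅ := by
        rw [Finset.filter_eq_empty_iff]
        intro p hp h
        exact ha (Finset.mem_image.2 ⟨p, hp, h⟩)
      rw [h2]
      simp
  choose T hT1 hT2 hT3 using h1
  obtain ⟨T', hT'⟩ : ∃ T' : Finset ((Fin (d + 1) → ℤ) × ℤ),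
      T' = S.filter (fun p => p.2 ∈ T p.1) := ⟨_, rfl⟩
  have hmem : ∀ p, p ∈ T' ↔ p ∈ S ∧ p.2 ∈ T p.1 := fun p => by rw [hT', Finset.mem_filter]
  have h4 : (T'.card : ℝ) ≤ M := by
    refine hM T' ?_ ?_
    · intro p hp
      obtain ⟨h5, h6, h7, h8, h9⟩ := hS p ((hmem p).1 hp).1
      exact ⟨h5, h6, h7, h9⟩
    · intro a x x' hx hx' θ hθ hc
      exact hT2 a x ((hmem _).1 hx).2 x' ((hmem _).1 hx').2 θ hθ hc
  have h5 : S.card ≤ N * T'.card := by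
    have e1 : S.card = ∑ a ∈ S.image Prod.fst, (S.filter (fun p => p.1 = a)).card :=
      Finset.card_eq_sum_card_image Prod.fst S
    have e2 : T'.card = ∑ a ∈ S.image Prod.fst, (T'.filter (fun p => p.1 = a)).card :=
      Finset.card_eq_sum_card_fiberwise
        (fun p hp => Finset.mem_image_of_mem _ ((hmem p).1 hp).1)
    rw [e1, e2, Finset.mul_sum]
    refine Finset.sum_le_sum fun a _ => ?_
    have e3 : (S.filter (fun p => p.1 = a)).card ≤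
        ((S.filter (fun p => p.1 = a)).image Prod.snd).card := by
      rw [Finset.card_image_of_injOn]
      intro p hp q hq h
      have f1 := (Finset.mem_filter.1 (Finset.mem_coe.1 hp)).2
      have f2 := (Finset.mem_filter.1 (Finset.mem_coe.1 hq)).2
      exact Prod.ext (f1.trans f2.symm) h
    have e4 : (T a).card ≤ (T'.filter (fun p => p.1 = a)).card := by
      refine Finset.card_le_card_of_injOn (fun x => (a, x)) ?_ ?_
      · intro x hx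
        obtain ⟨q, hq, rfl⟩ := Finset.mem_image.1 (hT1 a hx)
        obtain ⟨hq1, hq2⟩ := Finset.mem_filter.1 hq
        have f1 : (a, q.2) = q := Prod.ext hq2.symm rfl
        have f2 : (a, q.2) ∈ S := by rw [f1]; exact hq1
        exact Finset.mem_coe.2 (Finset.mem_filter.2 ⟨(hmem _).2 ⟨f2, hx⟩, rfl⟩)
      · intro x _ y _ h
        exact (Prod.mk.inj h).2
    exact e3.trans ((hT3 a).trans (Nat.mul_le_mul_left N e4))
  calc (S.card : ℝ) ≤ ((N * T'.card : ℕ) : ℝ) := by exact_mod_cast h5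
    _ = N * (T'.card : ℝ) := by push_cast; ring
    _ ≤ N * M := mul_le_mul_of_nonneg_left h4 (Nat.cast_nonneg _)

/-- a set all of whose finite subsets are bounded -/
theorem fin_of_bdd {α : Type*} (A : Set α) (M : ℝ)
    (h : ∀ S : Finset α, (↑S : Set α) ⊆ A → (S.card : ℝ) ≤ M) :
    A.Finite ∧ (A.ncard : ℝ) ≤ M := by
  have hf : A.Finite := by
    by_contra hinf
    obtain ⟨S, hS, hc⟩ := Set.Infinite.exists_subset_card_eq hinf (⌊M⌋₊ + 1)
    have h1 := h S hS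
    rw [hc] at h1
    have h2 := Nat.lt_floor_add_one M
    push_cast at h1
    linarith
  refine ⟨hf, ?_⟩
  rw [Set.ncard_eq_toFinset_card A hf]
  exact h _ (by rw [hf.coe_toFinset])

/-- the points above the threshold -/
def Big (d K : ℕ) (E : Finset ℤ) (H : ℕ) : Set ((Fin (d + 1) → ℤ) × ℤ × ℤ) :=
  {p | (∀ i, |p.1 i| ≤ (H : ℤ)) ∧ Good p.1 ∧ p.1 (Fin.last d) ∉ E ∧ Thr K H p.1 p.2.1 ∧
    p.2.2 ^ 2 = ∑ i, p.1 i * p.2.1 ^ (i : ℕ)}

/-- all points -/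
def Pts (d : ℕ) (E : Finset ℤ) (H : ℕ) : Set ((Fin (d + 1) → ℤ) × ℤ × ℤ) :=
  {p | (∀ i, |p.1 i| ≤ (H : ℤ)) ∧ Good p.1 ∧ p.1 (Fin.last d) ∉ E ∧
    p.2.2 ^ 2 = ∑ i, p.1 i * p.2.1 ^ (i : ℕ)}

theorem big_fin (d : ℕ) (hd : 3 ≤ d) : ∃ K N : ℕ, 1 ≤ K ∧ ∀ (H : ℕ) (E : Finset ℤ) (M : ℝ),
    ClassBd d E H M → (Big d K E H).Finite ∧ ((Big d K E H).ncard : ℝ) ≤ 2 * (N * M) := by
  classical
  obtain ⟨K, N, hK, h⟩ := big_card d hd
  refine ⟨K, N, hK, fun H E M hM => fin_of_bdd _ _ fun S hS => ?_⟩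
  obtain ⟨g, hg⟩ : ∃ g : (Fin (d + 1) → ℤ) × ℤ × ℤ → (Fin (d + 1) → ℤ) × ℤ,
      g = fun p => (p.1, p.2.1) := ⟨_, rfl⟩
  have h1 := h H E M hM (S.image g) (by
    intro p hp
    obtain ⟨q, hq, rfl⟩ := Finset.mem_image.1 hp
    obtain ⟨f1, f2, f3, f4, f5⟩ := hS (Finset.mem_coe.2 hq)
    rw [hg]
    exact ⟨f1, f2, f3, f4, q.2.2, f5⟩)
  have h2 : S.card ≤ 2 * (S.image g).card := by
    refine Finset.card_le_mul_card_image S 2 fun b hb => ?_
    obtain ⟨q, hq, rfl⟩ := Finset.mem_image.1 hb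
    have h3 : S.filter (fun p => g p = g q) ⊆ {q, (q.1, q.2.1, -q.2.2)} := by
      intro p hp
      obtain ⟨hp1, hp2⟩ := Finset.mem_filter.1 hp
      rw [hg] at hp2
      obtain ⟨hp3, hp4⟩ := Prod.mk.inj hp2
      obtain ⟨-, -, -, -, f5⟩ := hS (Finset.mem_coe.2 hp1)
      obtain ⟨-, -, -, -, f6⟩ := hS (Finset.mem_coe.2 hq)
      have f7 : p.2.2 ^ 2 = q.2.2 ^ 2 := by rw [f5, f6, hp3, hp4]
      rw [Finset.mem_insert, Finset.mem_singleton]
      rcases sq_eq_sq_iff_eq_or_eq_neg.1 f7 with f8 | f8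
      · left
        exact Prod.ext hp3 (Prod.ext hp4 f8)
      · right
        exact Prod.ext hp3 (Prod.ext hp4 f8)
    exact (Finset.card_le_card h3).trans Finset.card_le_two
  calc (S.card : ℝ) ≤ ((2 * (S.image g).card : ℕ) : ℝ) := by exact_mod_cast h2
    _ = 2 * ((S.image g).card : ℝ) := by push_cast; ring
    _ ≤ 2 * (N * M) := mul_le_mul_of_nonneg_left h1 (by norm_num)

/-- the substitution `x ↦ - x` -/
def ng (d : ℕ) (p : (Fin (d + 1) → ℤ) × ℤ × ℤ) : (Fin (d + 1) → ℤ) × ℤ × ℤ :=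
  (fun i => (-1) ^ (i : ℕ) * p.1 i, -p.2.1, p.2.2)

theorem ng_inj (d : ℕ) : Function.Injective (ng d) := by
  intro p q h
  obtain ⟨h1, h2⟩ := Prod.mk.inj h
  obtain ⟨h3, h4⟩ := Prod.mk.inj h2
  refine Prod.ext ?_ (Prod.ext (by linarith) h4)
  funext i
  have h5 := congrFun h1 i
  exact mul_left_cancel₀ (pow_ne_zero _ (by norm_num)) h5

theorem good_ng {d : ℕ} {a : Fin (d + 1) → ℤ} (h : Good a) :
    Good (fun i : Fin (d + 1) => (-1) ^ (i : ℕ) * a i) := by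
  obtain ⟨h0, e, he, hev⟩ := h
  refine ⟨mul_ne_zero (pow_ne_zero _ (by norm_num)) h0, fun i => -e i,
    fun i j hij => he (neg_injective hij), fun z => ?_⟩
  have h1 := hev (-z)
  have h2 : ∑ i : Fin (d + 1), (((-1) ^ (i : ℕ) * a i : ℤ) : ℂ) * z ^ (i : ℕ) =
      ∑ i : Fin (d + 1), (a i : ℂ) * (-z) ^ (i : ℕ) := by
    refine Finset.sum_congr rfl fun i _ => ?_
    push_cast
    rw [neg_pow z]
    ring
  rw [h2, h1]
  have h3 : ∏ i, (-z - e i) = (-1) ^ d * ∏ i, (z - -e i) := by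
    have h4 : ∀ i, -z - e i = (-1) * (z - -e i) := fun i => by ring
    rw [Finset.prod_congr rfl fun i _ => h4 i, Finset.prod_mul_distrib, Finset.prod_const,
      Finset.card_univ, Fintype.card_fin]
  rw [h3]
  simp only [Int.cast_mul, Int.cast_pow, Int.cast_neg, Int.cast_one, Fin.val_last]
  ring

theorem abs_ng (i : ℕ) (a : ℤ) : |(-1) ^ i * a| = |a| := by
  rw [abs_mul, abs_pow, abs_neg, abs_one, one_pow, one_mul]

theorem pts_sub (d K : ℕ) (E E' : Finset ℤ) (H : ℕ) (hE : E ⊆ E') (hE' : ∀ α, -α ∈ E → α ∈ E') :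
    Pts d E' H ⊆ Bel d K H ∪ (Big d K E H ∪ ng d ⁻¹' (Big d K E H)) := by
  rintro ⟨a, x, y⟩ ⟨h1, h2, h3, h4⟩
  simp only at h1 h2 h3 h4
  by_cases ht : Thr K H a |x|
  · right
    rcases le_or_gt 0 x with hx | hx
    · left
      rw [abs_of_nonneg hx] at ht
      exact ⟨h1, h2, fun h => h3 (hE h), ht, h4⟩
    · right
      rw [abs_of_neg hx] at ht
      refine ⟨fun i => ?_, good_ng h2, ?_, ?_, ?_⟩
      · show |(-1) ^ (i : ℕ) * a i| ≤ (H : ℤ)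
        rw [abs_ng]
        exact h1 i
      · show (-1) ^ ((Fin.last d : Fin (d + 1)) : ℕ) * a (Fin.last d) ∉ E
        rw [Fin.val_last]
        rcases neg_one_pow_eq_or ℤ d with h5 | h5
        · rw [h5, one_mul]
          exact fun h => h3 (hE h)
        · rw [h5, neg_one_mul]
          exact fun h => h3 (hE' _ h)
      · show Thr K H (fun i : Fin (d + 1) => (-1) ^ (i : ℕ) * a i) (-x)
        unfold Thr at ht ⊢
        simp only [abs_ng]
        exact ht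
      · show y ^ 2 = ∑ i : Fin (d + 1), (-1) ^ (i : ℕ) * a i * (-x) ^ (i : ℕ)
        rw [h4]
        refine Finset.sum_congr rfl fun i _ => ?_
        have h5 : ((-1 : ℤ) ^ (i : ℕ)) * (-1) ^ (i : ℕ) = 1 := by
          rw [← mul_pow]
          norm_num
        rw [neg_pow x]
        linear_combination (-(a i * x ^ (i : ℕ))) * h5
  · left
    exact ⟨h1, h2.1, ht, h4⟩

theorem num_bd (c : ℝ) (hc : 0 < c) : ∃ C : ℝ, 1 ≤ C ∧ ∀ H : ℕ, 2 ≤ H →
    (1 + Real.log H) ^ 2 * (H : ℝ) ^ (-(1 / 4) : ℝ) ≤ C * (Real.log H) ^ (-c) := by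
  refine ⟨max 1 (144 * (12 * c) ^ c), le_max_left _ _, fun H hH => ?_⟩
  have hHr : (2 : ℝ) ≤ H := by exact_mod_cast hH
  have hH0 : (0 : ℝ) < H := by linarith
  have hL : 0 < Real.log H := Real.log_pos (by linarith)
  have h12 : (0 : ℝ) < 12 * c := by positivity
  -- the powers
  have h1 : 1 + Real.log H ≤ 12 * (H : ℝ) ^ (1 / 12 : ℝ) := by
    have e1 : Real.log H = 12 * Real.log ((H : ℝ) ^ (1 / 12 : ℝ)) := by
      rw [Real.log_rpow hH0]
      ring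
    have e2 : Real.log ((H : ℝ) ^ (1 / 12 : ℝ)) ≤ (H : ℝ) ^ (1 / 12 : ℝ) - 1 :=
      Real.log_le_sub_one_of_pos (Real.rpow_pos_of_pos hH0 _)
    rw [e1]
    linarith
  have h2 : (1 + Real.log H) ^ 2 ≤ 144 * (H : ℝ) ^ (1 / 6 : ℝ) := by
    calc (1 + Real.log H) ^ 2 ≤ (12 * (H : ℝ) ^ (1 / 12 : ℝ)) ^ 2 :=
          pow_le_pow_left₀ (by linarith) h1 2
      _ = 144 * ((H : ℝ) ^ (1 / 12 : ℝ)) ^ 2 := by ring
      _ = 144 * (H : ℝ) ^ (1 / 6 : ℝ) := by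
          rw [← Real.rpow_natCast, ← Real.rpow_mul hH0.le]
          norm_num
  have h3 : Real.log H ≤ 12 * c * (H : ℝ) ^ (1 / (12 * c)) := by
    have e1 := Real.log_le_rpow_div hH0.le (show (0 : ℝ) < 1 / (12 * c) by positivity)
    calc Real.log H ≤ (H : ℝ) ^ (1 / (12 * c)) / (1 / (12 * c)) := e1
      _ = 12 * c * (H : ℝ) ^ (1 / (12 * c)) := by
          rw [div_div_eq_mul_div, div_one, mul_comm]
  have h4 : (Real.log H) ^ c ≤ (12 * c) ^ c * (H : ℝ) ^ (1 / 12 : ℝ) := by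
    calc (Real.log H) ^ c ≤ (12 * c * (H : ℝ) ^ (1 / (12 * c))) ^ c :=
          Real.rpow_le_rpow hL.le h3 hc.le
      _ = (12 * c) ^ c * ((H : ℝ) ^ (1 / (12 * c))) ^ c :=
          Real.mul_rpow h12.le (Real.rpow_nonneg hH0.le _)
      _ = (12 * c) ^ c * (H : ℝ) ^ (1 / 12 : ℝ) := by
          rw [← Real.rpow_mul hH0.le]
          congr 2
          field_simp
  have h5 : (H : ℝ) ^ (1 / 6 : ℝ) * (H : ℝ) ^ (-(1 / 4) : ℝ) * (H : ℝ) ^ (1 / 12 : ℝ) = 1 := by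
    rw [← Real.rpow_add hH0, ← Real.rpow_add hH0]
    norm_num
  have h6 : (1 + Real.log H) ^ 2 * (H : ℝ) ^ (-(1 / 4) : ℝ) * (Real.log H) ^ c ≤
      144 * (12 * c) ^ c := by
    have p1 : (0 : ℝ) ≤ (H : ℝ) ^ (-(1 / 4) : ℝ) := Real.rpow_nonneg hH0.le _
    have p2 : (0 : ℝ) ≤ (Real.log H) ^ c := Real.rpow_nonneg hL.le _
    have p3 : (0 : ℝ) ≤ (H : ℝ) ^ (1 / 6 : ℝ) := Real.rpow_nonneg hH0.le _
    calc (1 + Real.log H) ^ 2 * (H : ℝ) ^ (-(1 / 4) : ℝ) * (Real.log H) ^ c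
        ≤ (144 * (H : ℝ) ^ (1 / 6 : ℝ)) * (H : ℝ) ^ (-(1 / 4) : ℝ) *
          ((12 * c) ^ c * (H : ℝ) ^ (1 / 12 : ℝ)) :=
          mul_le_mul (mul_le_mul_of_nonneg_right h2 p1) h4 p2 (by positivity)
      _ = 144 * (12 * c) ^ c * ((H : ℝ) ^ (1 / 6 : ℝ) * (H : ℝ) ^ (-(1 / 4) : ℝ) *
          (H : ℝ) ^ (1 / 12 : ℝ)) := by ring
      _ = 144 * (12 * c) ^ c := by rw [h5, mul_one]
  rw [Real.rpow_neg hL.le, ← div_eq_mul_inv, le_div_iff₀ (Real.rpow_pos_of_pos hL _)]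
  exact h6.trans (le_max_right _ _)

/-- the symmetric exceptional set -/
def symE (E : Finset ℤ) : Finset ℤ := E ∪ E.image (fun α => -α)

theorem card_symE (E : Finset ℤ) : (symE E).card ≤ 2 * E.card := by
  unfold symE
  refine (Finset.card_union_le _ _).trans ?_
  have := Finset.card_image_le (s := E) (f := fun α : ℤ => -α)
  omega

/-- the assembly, for tuples -/
theorem assembly (d : ℕ) (hd : 3 ≤ d) (C0 c : ℝ) (hC0 : 0 < C0) (hc : 0 < c) :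
    ∃ C : ℝ, 1 ≤ C ∧ ∀ (H : ℕ) (E : Finset ℤ), 2 ≤ H →
      ClassBd d E H (C0 * (H : ℝ) ^ (d + 1) * (Real.log H) ^ (-c)) →
      (Pts d (symE E) H).Finite ∧
      ((Pts d (symE E) H).ncard : ℝ) ≤ C * (H : ℝ) ^ (d + 1) * (Real.log H) ^ (-c) := by
  obtain ⟨K, N, hK, hbig⟩ := big_fin d hd
  obtain ⟨C1, hC1, hbel⟩ := below_thr d hd K
  obtain ⟨C2, hC2, hnum⟩ := num_bd c hc
  have hC12 : 1 ≤ C1 * C2 := one_le_mul_of_one_le_of_one_le hC1 hC2
  refine ⟨C1 * C2 + 4 * N * C0, ?_, fun H E hH hcl => ?_⟩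
  · have : 0 ≤ 4 * (N : ℝ) * C0 := by positivity
    linarith
  obtain ⟨hf1, hb1⟩ := hbel H (by omega)
  obtain ⟨hf2, hb2⟩ := hbig H E _ hcl
  have hHr : (2 : ℝ) ≤ H := by exact_mod_cast hH
  have hH0 : (0 : ℝ) < H := by linarith
  have hsub := pts_sub d K E (symE E) H (fun α hα => Finset.mem_union_left _ hα) (fun α hα =>
    Finset.mem_union_right _ (Finset.mem_image.2 ⟨-α, hα, neg_neg α⟩))
  have hf3 : (ng d ⁻¹' (Big d K E H)).Finite := hf2.preimage (ng_inj d).injOn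
  have hb3 : (ng d ⁻¹' (Big d K E H)).ncard ≤ (Big d K E H).ncard := by
    refine Set.ncard_le_ncard_of_injOn (ng d) (fun p hp => hp) (ng_inj d).injOn hf2
  have hfU := hf1.union (hf2.union hf3)
  refine ⟨hfU.subset hsub, ?_⟩
  have h1 : (Pts d (symE E) H).ncard ≤
      (Bel d K H).ncard + ((Big d K E H).ncard + (Big d K E H).ncard) := by
    refine (Set.ncard_le_ncard hsub hfU).trans ?_
    refine (Set.ncard_union_le _ _).trans ?_
    refine Nat.add_le_add_left ?_ _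
    refine (Set.ncard_union_le _ _).trans ?_
    exact Nat.add_le_add_left hb3 _
  have h2 : ((Pts d (symE E) H).ncard : ℝ) ≤
      (Bel d K H).ncard + ((Big d K E H).ncard + (Big d K E H).ncard) := by exact_mod_cast h1
  have h3 : C1 * (H : ℝ) ^ (d + 1) * (1 + Real.log H) ^ 2 * (H : ℝ) ^ (-(1 / 4) : ℝ) ≤
      C1 * C2 * (H : ℝ) ^ (d + 1) * (Real.log H) ^ (-c) := by
    have h4 := mul_le_mul_of_nonneg_left (hnum H hH)
      (show (0 : ℝ) ≤ C1 * (H : ℝ) ^ (d + 1) by positivity)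
    calc C1 * (H : ℝ) ^ (d + 1) * (1 + Real.log H) ^ 2 * (H : ℝ) ^ (-(1 / 4) : ℝ)
        = C1 * (H : ℝ) ^ (d + 1) * ((1 + Real.log H) ^ 2 * (H : ℝ) ^ (-(1 / 4) : ℝ)) := by ring
      _ ≤ C1 * (H : ℝ) ^ (d + 1) * (C2 * (Real.log H) ^ (-c)) := h4
      _ = _ := by ring
  calc ((Pts d (symE E) H).ncard : ℝ)
      ≤ (Bel d K H).ncard + ((Big d K E H).ncard + (Big d K E H).ncard) := h2
    _ ≤ C1 * C2 * (H : ℝ) ^ (d + 1) * (Real.log H) ^ (-c) +
        (2 * (N * (C0 * (H : ℝ) ^ (d + 1) * (Real.log H) ^ (-c))) +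
          2 * (N * (C0 * (H : ℝ) ^ (d + 1) * (Real.log H) ^ (-c)))) :=
        add_le_add (hb1.trans h3) (add_le_add hb2 hb2)
    _ = (C1 * C2 + 4 * N * C0) * (H : ℝ) ^ (d + 1) * (Real.log H) ^ (-c) := by ring

end Pool.Agent.Helper5.FM
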