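import Pool.Agent.Helper5.FM.Small

set_option autoImplicit false

/-!
# FM-D: digit count for the points of medium size

`Mid f H Z`: `d = f + 2 ≥ 3`, the triples `(a, x, y)` with `|a_i| ≤ H`, `y² = ∑ a_i x^i`, `4 H < |a_d| |x|`, `|x| ≤ Z |a_d|`.
-/

namespace Pool.Agent.Helper5.FM

/-- the second coefficient -/
theorem a1count (W x : ℤ) (H : ℕ) (hx : x ≠ 0) (s : Finset ℤ)
    (hs : ∀ z ∈ s, |W - z * x| ≤ (H : ℤ)) : s.card ≤ 2 * H / x.natAbs + 1 := by
  rcases s.eq_empty_or_nonempty with rfl | hne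
  · simp
  · obtain ⟨m, hm, hmin⟩ := Finset.exists_min_image s id hne
    obtain ⟨E, hE⟩ : ∃ E : ℕ, E = 2 * H / x.natAbs := ⟨_, rfl⟩
    rw [← hE]
    have h1 : s ⊆ Finset.Icc m (m + (E : ℤ)) := by
      intro z hz
      have hle : m ≤ z := hmin z hz
      rw [Finset.mem_Icc]
      refine ⟨hle, ?_⟩
      have h2 := hs z hz
      have h3 := hs m hm
      have h4 : (z - m) * |x| ≤ 2 * (H : ℤ) := by
        have e1 : (z - m) * |x| = |(W - m * x) - (W - z * x)| := by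
          rw [show (W - m * x) - (W - z * x) = (z - m) * x by ring, abs_mul,
            abs_of_nonneg (by omega : 0 ≤ z - m)]
        rw [e1]
        exact (abs_sub _ _).trans (by linarith)
      have h5 : (z - m).toNat ≤ E := by
        rw [hE, Nat.le_div_iff_mul_le (Int.natAbs_pos.2 hx)]
        zify
        rw [Int.toNat_of_nonneg (by omega)]
        exact h4
      omega
    refine (Finset.card_le_card h1).trans ?_
    rw [Int.card_Icc]
    omega

theorem ycount2_pos (T x : ℤ) (k H : ℕ) (hk : 1 ≤ k) (hx : 2 ≤ |x|)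
    (hkx : 4 * (H : ℤ) < k * |x|) (hT : (k : ℤ) * |x| ^ 3 ≤ 2 * |T|) (s : Finset ℤ)
    (hs : ∀ y ∈ s, 0 ≤ y ∧ |y ^ 2 - T| ≤ 2 * (H : ℤ) * |x|) :
    s.card ≤ Nat.sqrt (16 * H ^ 2 / (k * x.natAbs)) + 1 := by
  have hx0 : 0 < |x| := by linarith
  have hH0 : (0 : ℤ) ≤ H := Int.natCast_nonneg _
  have hbig : 8 * (H : ℤ) * |x| < 2 * |T| := by
    have e1 : 4 * (H : ℤ) * |x| ^ 2 < k * |x| * |x| ^ 2 :=
      mul_lt_mul_of_pos_right hkx (by positivity)
    have e2 : 4 * (H : ℤ) * (2 * |x|) ≤ 4 * (H : ℤ) * |x| ^ 2 := by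
      refine mul_le_mul_of_nonneg_left ?_ (by positivity)
      nlinarith
    nlinarith
  rcases s.eq_empty_or_nonempty with rfl | hne
  · simp
  · obtain ⟨m, hm, hmin⟩ := Finset.exists_min_image s id hne
    obtain ⟨m0, hm1⟩ := hs m hm
    rw [abs_le] at hm1
    have hTpos : 0 < T := by
      by_contra hcon
      have hT0 : |T| = -T := abs_of_nonpos (by omega)
      rw [hT0] at hbig
      nlinarith [sq_nonneg m]
    rw [abs_of_pos hTpos] at hT hbig
    have hm2 : (k : ℤ) * |x| ^ 3 ≤ 4 * m ^ 2 := by nlinarith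
    have h1 : s ⊆ Finset.Icc m (m + (Nat.sqrt (16 * H ^ 2 / (k * x.natAbs)) : ℕ)) := by
      intro y hy
      have hle : m ≤ y := hmin y hy
      rw [Finset.mem_Icc]
      refine ⟨hle, ?_⟩
      obtain ⟨y0, hy1⟩ := hs y hy
      rw [abs_le] at hy1
      have h2 : (y - m) * (y + m) ≤ 4 * (H : ℤ) * |x| := by nlinarith
      have h3 : (k : ℤ) * |x| ^ 3 ≤ (y + m) ^ 2 := by nlinarith
      have h4 : (y - m) ^ 2 * ((k : ℤ) * |x| ^ 3) ≤ (4 * (H : ℤ) * |x|) ^ 2 := by
        calc (y - m) ^ 2 * ((k : ℤ) * |x| ^ 3) ≤ (y - m) ^ 2 * (y + m) ^ 2 :=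
              mul_le_mul_of_nonneg_left h3 (sq_nonneg _)
          _ = ((y - m) * (y + m)) ^ 2 := by ring
          _ ≤ _ := pow_le_pow_left₀ (mul_nonneg (by omega) (by omega)) h2 2
      have h5 : (y - m) ^ 2 * ((k : ℤ) * |x|) ≤ 16 * (H : ℤ) ^ 2 := by
        have e1 : ((y - m) ^ 2 * ((k : ℤ) * |x|)) * |x| ^ 2 ≤ (16 * (H : ℤ) ^ 2) * |x| ^ 2 := by
          nlinarith
        exact le_of_mul_le_mul_right e1 (by positivity)
      have h6 : (y - m).toNat ≤ Nat.sqrt (16 * H ^ 2 / (k * x.natAbs)) := by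
        rw [Nat.le_sqrt', Nat.le_div_iff_mul_le
          (Nat.mul_pos (by omega) (Int.natAbs_pos.2 (by rintro rfl; simp at hx)))]
        zify
        rw [Int.toNat_of_nonneg (by omega)]
        exact h5
      omega
    refine (Finset.card_le_card h1).trans ?_
    rw [Int.card_Icc]
    omega

theorem ycount2 (T x : ℤ) (k H : ℕ) (hk : 1 ≤ k) (hx : 2 ≤ |x|)
    (hkx : 4 * (H : ℤ) < k * |x|) (hT : (k : ℤ) * |x| ^ 3 ≤ 2 * |T|) (s : Finset ℤ)
    (hs : ∀ y ∈ s, |y ^ 2 - T| ≤ 2 * (H : ℤ) * |x|) :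
    s.card ≤ 2 * (Nat.sqrt (16 * H ^ 2 / (k * x.natAbs)) + 1) := by
  classical
  have h1 : s = s.filter (fun y => 0 ≤ y) ∪ s.filter (fun y => ¬ 0 ≤ y) :=
    (Finset.filter_union_filter_not_eq _ s).symm
  have h2 : (s.filter fun y => 0 ≤ y).card ≤ Nat.sqrt (16 * H ^ 2 / (k * x.natAbs)) + 1 :=
    ycount2_pos T x k H hk hx hkx hT _ fun y hy => by
      obtain ⟨a, b⟩ := Finset.mem_filter.1 hy
      exact ⟨b, hs y a⟩
  have h3 : (s.filter fun y => ¬ 0 ≤ y).card ≤ Nat.sqrt (16 * H ^ 2 / (k * x.natAbs)) + 1 := by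
    have h4 : ((s.filter fun y => ¬ 0 ≤ y).image fun y => -y).card =
        (s.filter fun y => ¬ 0 ≤ y).card :=
      Finset.card_image_of_injective _ neg_injective
    rw [← h4]
    refine ycount2_pos T x k H hk hx hkx hT _ fun z hz => ?_
    obtain ⟨y, hy, rfl⟩ := Finset.mem_image.1 hz
    obtain ⟨a, b⟩ := Finset.mem_filter.1 hy
    have := hs y a
    rw [neg_pow_two]
    exact ⟨by omega, this⟩
  rw [h1]
  refine (Finset.card_union_le _ _).trans ?_
  omega

theorem geo2 (m : ℤ) (hm : 2 ≤ m) (f : ℕ) :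
    ∑ i : Fin f, m ^ ((i : ℕ) + 2) ≤ 2 * m ^ (f + 1) := by
  rw [Fin.sum_univ_eq_sum_range (fun i => m ^ (i + 2)) f]
  induction f with
  | zero =>
    rw [Finset.sum_range_zero]
    positivity
  | succ f ih =>
    rw [Finset.sum_range_succ]
    have h1 : 0 < m ^ (f + 1) := by positivity
    have h2 : m ^ (f + 1 + 1) = m ^ (f + 1) * m := pow_succ _ _
    have h3 : m ^ (f + 2) = m ^ (f + 1) * m := pow_succ _ _
    nlinarith

theorem sum_split3 (f : ℕ) (a : Fin (f + 3) → ℤ) (x : ℤ) : ∑ i, a i * x ^ (i : ℕ) =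
    a 0 + a 1 * x + (∑ i : Fin f, a i.castSucc.succ.succ * x ^ ((i : ℕ) + 2) +
      a (Fin.last (f + 2)) * x ^ (f + 2)) := by
  rw [Fin.sum_univ_succ, Fin.sum_univ_succ, Fin.sum_univ_castSucc]
  have h0 : ((0 : Fin (f + 3)) : ℕ) = 0 := rfl
  have h1 : (((0 : Fin (f + 2)).succ : Fin (f + 3)) : ℕ) = 1 := rfl
  have h2 : ((0 : Fin (f + 2)).succ : Fin (f + 3)) = 1 := rfl
  have h3 : ((Fin.last f).succ.succ : Fin (f + 3)) = Fin.last (f + 2) := rfl
  have h4 : ((Fin.last (f + 2) : Fin (f + 3)) : ℕ) = f + 2 := rfl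
  rw [h1, h2, h3, h4, h0, pow_zero, mul_one, pow_one]
  have h5 : ∀ i : Fin f, a i.castSucc.succ.succ * x ^ ((i.castSucc.succ.succ : Fin (f + 3)) : ℕ) =
      a i.castSucc.succ.succ * x ^ ((i : ℕ) + 2) := fun i => rfl
  rw [Finset.sum_congr rfl fun i _ => h5 i]
  ring

/-- the triples with given leading coefficient and given `x` -/
def PA (f H : ℕ) (α x : ℤ) : Set ((Fin (f + 3) → ℤ) × ℤ) :=
  {p | (∀ i, |p.1 i| ≤ (H : ℤ)) ∧ p.1 (Fin.last (f + 2)) = α ∧
    p.2 ^ 2 = ∑ i, p.1 i * x ^ (i : ℕ)}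

theorem PA_card (f H : ℕ) (hf : 1 ≤ f) (α x : ℤ) (hx : 2 ≤ |x|)
    (hα : 4 * (H : ℤ) < |α| * |x|) : (PA f H α x).Finite ∧ (PA f H α x).ncard ≤
      (2 * H / x.natAbs + 1) *
        (2 * (Nat.sqrt (16 * H ^ 2 / (α.natAbs * x.natAbs)) + 1) * (2 * H + 1) ^ f) := by
  classical
  have hx0 : x ≠ 0 := by
    rintro rfl
    simp at hx
  have hα0 : α ≠ 0 := by
    rintro rfl
    simp at hα
    omega
  have hα1 : 1 ≤ α.natAbs := Int.natAbs_pos.2 hα0
  have hfin : (PA f H α x).Finite := by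
    set B : ℤ := ∑ i : Fin (f + 3), (H : ℤ) * |x| ^ (i : ℕ) with hB
    refine (Finset.finite_toSet ((Fintype.piFinset fun _ : Fin (f + 3) =>
      Finset.Icc (-(H : ℤ)) (H : ℤ)) ×ˢ Finset.Icc (-B) B)).subset ?_
    rintro ⟨a, y⟩ ⟨h1, -, h4⟩
    simp only at h1 h4
    rw [Finset.mem_coe, Finset.mem_product, Fintype.mem_piFinset, Finset.mem_Icc]
    refine ⟨fun i => Finset.mem_Icc.2 (abs_le.1 (h1 i)), abs_le.1 ?_⟩
    have h5 : y ^ 2 ≤ B := by
      rw [h4, hB]
      refine Finset.sum_le_sum fun i _ => ?_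
      calc a i * x ^ (i : ℕ) ≤ |a i * x ^ (i : ℕ)| := le_abs_self _
        _ = |a i| * |x| ^ (i : ℕ) := by rw [abs_mul, abs_pow]
        _ ≤ (H : ℤ) * |x| ^ (i : ℕ) := mul_le_mul_of_nonneg_right (h1 i) (by positivity)
    have h6 : |y| ≤ y ^ 2 := by
      rcases eq_or_ne y 0 with rfl | hy
      · simp
      · have h7 : 1 ≤ |y| := Int.one_le_abs hy
        rw [← sq_abs]
        nlinarith
    exact h6.trans h5
  refine ⟨hfin, ?_⟩
  rw [Set.ncard_eq_toFinset_card _ hfin]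
  set s := hfin.toFinset with hs
  have hmem : ∀ p ∈ s, (∀ i, |p.1 i| ≤ (H : ℤ)) ∧ p.1 (Fin.last (f + 2)) = α ∧
      p.2 ^ 2 = ∑ i, p.1 i * x ^ (i : ℕ) := by
    intro p hp
    exact hfin.mem_toFinset.1 hp
  set g : (Fin (f + 3) → ℤ) × ℤ → (Fin f → ℤ) × ℤ :=
    fun p => (fun i => p.1 i.castSucc.succ.succ, p.2) with hg
  set T : (Fin f → ℤ) → ℤ := fun b => ∑ i : Fin f, b i * x ^ ((i : ℕ) + 2) + α * x ^ (f + 2)
    with hT
  have hsplit : ∀ p ∈ s, p.2 ^ 2 = p.1 0 + p.1 1 * x + T (g p).1 := by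
    intro p hp
    obtain ⟨-, a2, a4⟩ := hmem p hp
    rw [a4, sum_split3, a2]
  have hTbig : ∀ b : Fin f → ℤ, (∀ i, |b i| ≤ (H : ℤ)) →
      ((α.natAbs : ℕ) : ℤ) * |x| ^ 3 ≤ 2 * |T b| := by
    intro b hb
    rw [← Int.abs_eq_natAbs]
    have e1 : |∑ i : Fin f, b i * x ^ ((i : ℕ) + 2)| ≤ (H : ℤ) * (2 * |x| ^ (f + 1)) := by
      calc |∑ i : Fin f, b i * x ^ ((i : ℕ) + 2)| ≤ ∑ i : Fin f, |b i * x ^ ((i : ℕ) + 2)| :=
            Finset.abs_sum_le_sum_abs _ _
        _ ≤ ∑ i : Fin f, (H : ℤ) * |x| ^ ((i : ℕ) + 2) := by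
            refine Finset.sum_le_sum fun i _ => ?_
            rw [abs_mul, abs_pow]
            exact mul_le_mul_of_nonneg_right (hb i) (by positivity)
        _ = (H : ℤ) * ∑ i : Fin f, |x| ^ ((i : ℕ) + 2) := by rw [Finset.mul_sum]
        _ ≤ _ := mul_le_mul_of_nonneg_left (geo2 _ hx f) (Int.natCast_nonneg _)
    have e2 : |α * x ^ (f + 2)| = |α| * |x| ^ (f + 2) := by rw [abs_mul, abs_pow]
    have e3 : |α * x ^ (f + 2)| ≤ |T b| + |∑ i : Fin f, b i * x ^ ((i : ℕ) + 2)| := by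
      have : α * x ^ (f + 2) = T b - ∑ i : Fin f, b i * x ^ ((i : ℕ) + 2) := by
        rw [hT]
        ring
      rw [this]
      exact abs_sub _ _
    have e4 : 4 * (H : ℤ) * |x| ^ (f + 1) ≤ |α| * |x| ^ (f + 2) := by
      calc 4 * (H : ℤ) * |x| ^ (f + 1) ≤ |α| * |x| * |x| ^ (f + 1) :=
            mul_le_mul_of_nonneg_right hα.le (by positivity)
        _ = _ := by ring
    have e5 : |α| * |x| ^ 3 ≤ |α| * |x| ^ (f + 2) :=
      mul_le_mul_of_nonneg_left (pow_le_pow_right₀ (by linarith) (by omega)) (abs_nonneg _)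
    rw [e2] at e3
    nlinarith
  have hfib1 : ∀ q ∈ s.image g, (s.filter fun p => g p = q).card ≤ 2 * H / x.natAbs + 1 := by
    intro q _
    set r := s.filter fun p => g p = q with hr
    have hinj : Set.InjOn (fun p : (Fin (f + 3) → ℤ) × ℤ => p.1 1) (r : Set _) := by
      intro p hp p' hp' heq
      have heq' : p.1 1 = p'.1 1 := heq
      obtain ⟨hps, hpg⟩ := Finset.mem_filter.1 (Finset.mem_coe.1 hp)
      obtain ⟨hps', hpg'⟩ := Finset.mem_filter.1 (Finset.mem_coe.1 hp')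
      have hgg : g p = g p' := hpg.trans hpg'.symm
      have c1 := hsplit p hps
      have c2 := hsplit p' hps'
      have b1 : (fun i : Fin f => p.1 i.castSucc.succ.succ) = fun i => p'.1 i.castSucc.succ.succ :=
        (congrArg Prod.fst hgg : (g p).1 = (g p').1)
      have b2 : p.2 = p'.2 := (congrArg Prod.snd hgg : (g p).2 = (g p').2)
      have a2 := (hmem p hps).2.1
      have a2' := (hmem p' hps').2.1
      have h00 : p.1 0 = p'.1 0 := by
        rw [← b2, c1, hgg, heq'] at c2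
        linarith
      have ha : p.1 = p'.1 := by
        funext i
        refine Fin.cases h00 (fun j => ?_) i
        refine Fin.cases heq' (fun k => ?_) j
        refine Fin.lastCases ?_ (fun l => ?_) k
        · rw [Fin.succ_last, Fin.succ_last]
          exact a2.trans a2'.symm
        · exact congrFun b1 l
      exact Prod.ext ha b2
    rw [← Finset.card_image_of_injOn hinj]
    refine a1count (q.2 ^ 2 - T q.1) x H hx0 _ fun z hz => ?_
    obtain ⟨p, hp, rfl⟩ := Finset.mem_image.1 hz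
    obtain ⟨hps, hpg⟩ := Finset.mem_filter.1 hp
    have c1 := hsplit p hps
    have c3 := (hmem p hps).1 0
    have b2 : p.2 = q.2 := (congrArg Prod.snd hpg : (g p).2 = q.2)
    have e1 : q.2 ^ 2 - T q.1 - p.1 1 * x = p.1 0 := by
      rw [← b2, c1, hpg]
      ring
    rw [e1]
    exact c3
  have hfib2 : ∀ b ∈ (s.image g).image Prod.fst,
      ((s.image g).filter fun q => q.1 = b).card ≤
        2 * (Nat.sqrt (16 * H ^ 2 / (α.natAbs * x.natAbs)) + 1) := by
    intro b _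
    set r := (s.image g).filter fun q => q.1 = b with hr
    have hinj : Set.InjOn (fun q : (Fin f → ℤ) × ℤ => q.2) (r : Set _) := by
      intro q hq q' hq' heq
      have h1 := (Finset.mem_filter.1 (Finset.mem_coe.1 hq)).2
      have h2 := (Finset.mem_filter.1 (Finset.mem_coe.1 hq')).2
      exact Prod.ext (h1.trans h2.symm) heq
    rw [← Finset.card_image_of_injOn hinj]
    rcases r.eq_empty_or_nonempty with hr0 | ⟨q0, hq0⟩
    · rw [hr0]
      simp
    · have hbb : ∀ i, |b i| ≤ (H : ℤ) := by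
        obtain ⟨h1, h2⟩ := Finset.mem_filter.1 hq0
        obtain ⟨p, hp, hpq⟩ := Finset.mem_image.1 h1
        intro i
        rw [← h2, ← hpq]
        exact (hmem p hp).1 _
      refine ycount2 (T b) x α.natAbs H hα1 hx ?_ (hTbig b hbb) _ fun y hy => ?_
      · rw [← Int.abs_eq_natAbs]
        exact hα
      · obtain ⟨q, hq, rfl⟩ := Finset.mem_image.1 hy
        obtain ⟨h1, h2⟩ := Finset.mem_filter.1 hq
        obtain ⟨p, hp, hpq⟩ := Finset.mem_image.1 h1
        have c1 := hsplit p hp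
        have b1 : (g p).1 = b := by rw [hpq]; exact h2
        have b2 : p.2 = q.2 := by rw [← hpq]
        rw [← b2, c1, b1, add_sub_cancel_right]
        have d1 := (hmem p hp).1 0
        have d2 := (hmem p hp).1 1
        have hH0 : (0 : ℤ) ≤ H := Int.natCast_nonneg _
        calc |p.1 0 + p.1 1 * x| ≤ |p.1 0| + |p.1 1 * x| := abs_add_le _ _
          _ = |p.1 0| + |p.1 1| * |x| := by rw [abs_mul]
          _ ≤ (H : ℤ) + (H : ℤ) * |x| :=
              add_le_add d1 (mul_le_mul_of_nonneg_right d2 (abs_nonneg _))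
          _ ≤ _ := by nlinarith
  have himg : ((s.image g).image Prod.fst).card ≤ (2 * H + 1) ^ f := by
    rw [← box_card' f H]
    refine Finset.card_le_card ?_
    intro b hb
    obtain ⟨q, hq, rfl⟩ := Finset.mem_image.1 hb
    obtain ⟨p, hp, rfl⟩ := Finset.mem_image.1 hq
    rw [Fintype.mem_piFinset]
    intro i
    exact Finset.mem_Icc.2 (abs_le.1 ((hmem p hp).1 _))
  have h1 := Finset.card_le_mul_card_image s _ hfib1
  have h2 := Finset.card_le_mul_card_image (s.image g) _ hfib2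
  exact h1.trans (Nat.mul_le_mul_left _ (h2.trans (Nat.mul_le_mul_left _ himg)))

end Pool.Agent.Helper5.FM
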