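import Pool.Agent.Helper5.FM.Digit
import Pool.Agent.Helper32.FM.Defs

set_option autoImplicit false

/-!
# FM-D: the points below the threshold `Thr`
-/

namespace Pool.Agent.Helper5.FM

/-- sums over nonzero integers -/
theorem sum_natAbs (n : ℕ) (s : Finset ℤ) (hs : ∀ x ∈ s, x ≠ 0 ∧ x.natAbs ≤ n) (g : ℕ → ℝ)
    (hg : ∀ m, 0 ≤ g m) : ∑ x ∈ s, g x.natAbs ≤ 2 * ∑ m ∈ Finset.Icc 1 n, g m := by
  classical
  have e1 : ∑ x ∈ s, g x.natAbs =
      ∑ k ∈ s.image Int.natAbs, ∑ x ∈ s with x.natAbs = k, g x.natAbs :=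
    (Finset.sum_fiberwise_of_maps_to (fun α hα => Finset.mem_image_of_mem _ hα) _).symm
  have e2 : ∀ k ∈ s.image Int.natAbs, ∑ x ∈ s with x.natAbs = k, g x.natAbs ≤ 2 * g k := by
    intro k _
    have f1 : ∑ x ∈ s with x.natAbs = k, g x.natAbs = ∑ x ∈ s with x.natAbs = k, g k := by
      refine Finset.sum_congr rfl fun α hα => ?_
      rw [(Finset.mem_filter.1 hα).2]
    rw [f1, Finset.sum_const, nsmul_eq_mul]
    have f2 : (s.filter fun x => x.natAbs = k).card ≤ 2 := by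
      have f3 : s.filter (fun x => x.natAbs = k) ⊆ {(k : ℤ), -(k : ℤ)} := by
        intro α hα
        have := (Finset.mem_filter.1 hα).2
        rw [Finset.mem_insert, Finset.mem_singleton]
        omega
      exact (Finset.card_le_card f3).trans Finset.card_le_two
    have f4 : ((s.filter fun x => x.natAbs = k).card : ℝ) ≤ 2 := by exact_mod_cast f2
    exact mul_le_mul_of_nonneg_right f4 (hg k)
  rw [e1]
  refine (Finset.sum_le_sum e2).trans ?_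
  rw [← Finset.mul_sum]
  refine mul_le_mul_of_nonneg_left ?_ (by norm_num)
  refine Finset.sum_le_sum_of_subset_of_nonneg ?_ (fun _ _ _ => hg _)
  intro k hk
  obtain ⟨α, hα, rfl⟩ := Finset.mem_image.1 hk
  have := hs α hα
  rw [Finset.mem_Icc]
  omega

/-- the bound of `PA_card` -/
def Wn (f H k m : ℕ) : ℕ :=
  (2 * H / m + 1) * (2 * (Nat.sqrt (16 * H ^ 2 / (k * m)) + 1) * (2 * H + 1) ^ f)

theorem Wn_le (f H k m : ℕ) (hH : 1 ≤ H) (hk : 1 ≤ k) (hm : 1 ≤ m) (hkm : 4 * H < k * m) :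
    ((Wn f H k m : ℕ) : ℝ) ≤ 2 * (3 * (H : ℝ)) ^ f *
      (6 * H * Real.sqrt H * (1 / m) + 4 * (H : ℝ) ^ 2 * (1 / k) * (1 / m) + 2) := by
  have hH1 : (1 : ℝ) ≤ H := by exact_mod_cast hH
  have hk1 : (1 : ℝ) ≤ k := by exact_mod_cast hk
  have hm1 : (1 : ℝ) ≤ m := by exact_mod_cast hm
  have hkm' : 4 * (H : ℝ) ≤ (k : ℝ) * m := by exact_mod_cast hkm.le
  set S : ℝ := Real.sqrt ((k : ℝ) * m) with hS
  have hS2 : S ^ 2 = (k : ℝ) * m := Real.sq_sqrt (by positivity)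
  have hS0 : 0 < S := Real.sqrt_pos.2 (by positivity)
  set h : ℝ := Real.sqrt H with hh
  have hh2 : h ^ 2 = (H : ℝ) := Real.sq_sqrt (by positivity)
  have hh0 : 0 < h := Real.sqrt_pos.2 (by positivity)
  have hh1 : 1 ≤ h := Real.one_le_sqrt.2 hH1
  have hSh : 2 * h ≤ S := by
    rw [hS]
    refine Real.le_sqrt_of_sq_le ?_
    rw [mul_pow, hh2]
    linarith
  have e1 : ((2 * H / m + 1 : ℕ) : ℝ) ≤ 2 * H * (1 / m) + 1 := by
    have : ((2 * H / m : ℕ) : ℝ) ≤ ((2 * H : ℕ) : ℝ) / ((m : ℕ) : ℝ) := Nat.cast_div_le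
    push_cast at this ⊢
    rw [mul_one_div]
    linarith
  have e2 : ((Nat.sqrt (16 * H ^ 2 / (k * m)) + 1 : ℕ) : ℝ) ≤ 4 * H / S + 1 := by
    have a1 : ((Nat.sqrt (16 * H ^ 2 / (k * m)) : ℕ) : ℝ) ≤
        Real.sqrt ((16 * H ^ 2 / (k * m) : ℕ) : ℝ) := Real.nat_sqrt_le_real_sqrt
    have a2 : ((16 * H ^ 2 / (k * m) : ℕ) : ℝ) ≤ (4 * (H : ℝ) / S) ^ 2 := by
      have : ((16 * H ^ 2 / (k * m) : ℕ) : ℝ) ≤ ((16 * H ^ 2 : ℕ) : ℝ) / ((k * m : ℕ) : ℝ) :=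
        Nat.cast_div_le
      refine this.trans (le_of_eq ?_)
      rw [div_pow, hS2]
      push_cast
      ring
    have a3 : Real.sqrt ((16 * H ^ 2 / (k * m) : ℕ) : ℝ) ≤ 4 * H / S := by
      rw [Real.sqrt_le_left (by positivity)]
      exact a2
    push_cast at a1 a3 ⊢
    linarith
  have e3 : ((2 * H + 1 : ℕ) : ℝ) ^ f ≤ (3 * (H : ℝ)) ^ f := by
    refine pow_le_pow_left₀ (by positivity) ?_ _
    push_cast
    linarith
  have e4 : (2 * (H : ℝ) * (1 / m) + 1) * (4 * H / S + 1) ≤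
      6 * H * h * (1 / m) + 4 * (H : ℝ) ^ 2 * (1 / k) * (1 / m) + 2 := by
    have b1 : 4 * (H : ℝ) / S ≤ 2 * h := by
      rw [div_le_iff₀ hS0]
      nlinarith
    have b2 : 4 * (H : ℝ) / S ≤ 1 + 4 * (H : ℝ) ^ 2 * (1 / k) * (1 / m) := by
      have c1 : 4 * (H : ℝ) ^ 2 * (1 / k) * (1 / m) = (2 * (H : ℝ) / S) ^ 2 := by
        rw [div_pow, hS2]
        field_simp
        ring
      have c2 : 4 * (H : ℝ) / S = 2 * (2 * (H : ℝ) / S) := by ring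
      rw [c1, c2]
      nlinarith [sq_nonneg (2 * (H : ℝ) / S - 1)]
    have b3 : (0 : ℝ) ≤ 1 / m := by positivity
    have b4 : 2 * (H : ℝ) * (1 / m) * (4 * H / S) ≤ 2 * (H : ℝ) * (1 / m) * (2 * h) :=
      mul_le_mul_of_nonneg_left b1 (by positivity)
    have b5 : 2 * (H : ℝ) * (1 / m) ≤ 2 * (H : ℝ) * h * (1 / m) := by
      have : (0 : ℝ) ≤ (H : ℝ) * (1 / m) := by positivity
      nlinarith
    nlinarith
  unfold Wn
  rw [Nat.cast_mul, Nat.cast_mul, Nat.cast_mul, Nat.cast_pow]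
  have d1 : (0 : ℝ) ≤ ((2 * H / m + 1 : ℕ) : ℝ) := Nat.cast_nonneg _
  have d2 : (0 : ℝ) ≤ ((Nat.sqrt (16 * H ^ 2 / (k * m)) + 1 : ℕ) : ℝ) := Nat.cast_nonneg _
  have d3 : (0 : ℝ) ≤ (3 * (H : ℝ)) ^ f := by positivity
  have d4 : (0 : ℝ) ≤ 4 * H / S + 1 := by positivity
  have d5 : (0 : ℝ) ≤ 2 * H * (1 / m) + 1 := by positivity
  calc ((2 * H / m + 1 : ℕ) : ℝ) * (((2 : ℕ) : ℝ) *
        ((Nat.sqrt (16 * H ^ 2 / (k * m)) + 1 : ℕ) : ℝ) * ((2 * H + 1 : ℕ) : ℝ) ^ f)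
      ≤ (2 * H * (1 / m) + 1) * (2 * (4 * H / S + 1) * (3 * (H : ℝ)) ^ f) := by
        refine mul_le_mul e1 (mul_le_mul ?_ e3 (by positivity) (by positivity)) (by positivity) d5
        push_cast at e2 ⊢
        linarith
    _ = 2 * (3 * (H : ℝ)) ^ f * ((2 * (H : ℝ) * (1 / m) + 1) * (4 * H / S + 1)) := by ring
    _ ≤ _ := mul_le_mul_of_nonneg_left e4 (by positivity)

/-- points of medium size -/
def Mid (f H : ℕ) (Z : ℕ → ℕ) : Set ((Fin (f + 3) → ℤ) × ℤ × ℤ) :=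
  {p | (∀ i, |p.1 i| ≤ (H : ℤ)) ∧ p.1 (Fin.last (f + 2)) ≠ 0 ∧
    4 * (H : ℤ) < |p.1 (Fin.last (f + 2))| * |p.2.1| ∧
    |p.2.1| ≤ (Z (p.1 (Fin.last (f + 2))).natAbs : ℤ) ∧
    p.2.2 ^ 2 = ∑ i, p.1 i * p.2.1 ^ (i : ℕ)}

theorem mid_count (f H : ℕ) (hf : 1 ≤ f) (hH : 1 ≤ H) (Z : ℕ → ℕ) (Zm : ℕ)
    (hZ : ∀ k, 1 ≤ k → Z k ≤ Zm) : (Mid f H Z).Finite ∧ ((Mid f H Z).ncard : ℝ) ≤
      8 * (3 * (H : ℝ)) ^ f * (10 * (H : ℝ) ^ 2 * Real.sqrt H * (1 + Real.log H) *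
        (1 + Real.log Zm) + 2 * ∑ k ∈ Finset.Icc 1 H, (Z k : ℝ)) := by
  classical
  have hH1 : (1 : ℝ) ≤ H := by exact_mod_cast hH
  set I : Finset ℤ := (Finset.Icc (-(H : ℤ)) (H : ℤ)).erase 0 with hI
  set J : ℤ → Finset ℤ := fun α => (Finset.Icc (-(Z α.natAbs : ℤ)) (Z α.natAbs : ℤ)).filter
    fun x => 4 * (H : ℤ) < |α| * |x| with hJ
  have hIm : ∀ α ∈ I, α ≠ 0 ∧ |α| ≤ (H : ℤ) := by
    intro α hα
    rw [hI, Finset.mem_erase, Finset.mem_Icc] at hα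
    exact ⟨hα.1, abs_le.2 hα.2⟩
  have hJm : ∀ α x, x ∈ J α → |x| ≤ (Z α.natAbs : ℤ) ∧ 4 * (H : ℤ) < |α| * |x| := by
    intro α x hx
    rw [hJ, Finset.mem_filter, Finset.mem_Icc] at hx
    exact ⟨abs_le.2 hx.1, hx.2⟩
  have hx2 : ∀ α ∈ I, ∀ x ∈ J α, 2 ≤ |x| := by
    intro α hα x hx
    obtain ⟨-, h1⟩ := hIm α hα
    obtain ⟨-, h2⟩ := hJm α x hx
    by_contra hcon
    have h3 : |x| ≤ 1 := by omega
    have h4 : (0 : ℤ) ≤ |α| := abs_nonneg _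
    nlinarith
  have hsub : Mid f H Z ⊆ ⋃ α ∈ I, ⋃ x ∈ J α,
      (fun q : (Fin (f + 3) → ℤ) × ℤ => (q.1, x, q.2)) '' PA f H α x := by
    rintro ⟨a, x, y⟩ ⟨h1, h2, h3, h4, h5⟩
    simp only at h1 h2 h3 h4 h5
    rw [Set.mem_iUnion₂]
    refine ⟨a (Fin.last (f + 2)), ?_, ?_⟩
    · rw [hI, Finset.mem_erase, Finset.mem_Icc]
      exact ⟨h2, abs_le.1 (h1 _)⟩
    · rw [Set.mem_iUnion₂]
      refine ⟨x, ?_, (a, y), ⟨h1, rfl, h5⟩, rfl⟩
      rw [hJ, Finset.mem_filter, Finset.mem_Icc]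
      exact ⟨abs_le.1 h4, h3⟩
  have hfinP : ∀ α ∈ I, ∀ x ∈ J α,
      ((fun q : (Fin (f + 3) → ℤ) × ℤ => (q.1, x, q.2)) '' PA f H α x).Finite := by
    intro α hα x hx
    exact (PA_card f H hf α x (hx2 α hα x hx) (hJm α x hx).2).1.image _
  have hfin : (⋃ α ∈ I, ⋃ x ∈ J α,
      (fun q : (Fin (f + 3) → ℤ) × ℤ => (q.1, x, q.2)) '' PA f H α x).Finite :=
    Set.Finite.biUnion (Finset.finite_toSet I) fun α hα =>
      Set.Finite.biUnion (Finset.finite_toSet (J α)) fun x hx => hfinP α hα x hx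
  refine ⟨hfin.subset hsub, ?_⟩
  have h1 : (Mid f H Z).ncard ≤ ∑ α ∈ I, ∑ x ∈ J α, Wn f H α.natAbs x.natAbs := by
    refine (Set.ncard_le_ncard hsub hfin).trans ?_
    refine (Finset.set_ncard_biUnion_le I _).trans ?_
    refine Finset.sum_le_sum fun α hα => ?_
    refine (Finset.set_ncard_biUnion_le (J α) _).trans ?_
    refine Finset.sum_le_sum fun x hx => ?_
    obtain ⟨b1, b2⟩ := PA_card f H hf α x (hx2 α hα x hx) (hJm α x hx).2
    exact (Set.ncard_image_le b1).trans b2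
  have h2 : ((Mid f H Z).ncard : ℝ) ≤ ∑ α ∈ I, ∑ x ∈ J α, ((Wn f H α.natAbs x.natAbs : ℕ) : ℝ) := by
    have := (Nat.cast_le (α := ℝ)).2 h1
    rw [Nat.cast_sum] at this
    refine this.trans (le_of_eq (Finset.sum_congr rfl fun α _ => ?_))
    rw [Nat.cast_sum]
  set P : ℝ := 2 * (3 * (H : ℝ)) ^ f with hP
  have hP0 : 0 ≤ P := by positivity
  have hlogm : ∀ α ∈ I, ∑ x ∈ J α, ((Wn f H α.natAbs x.natAbs : ℕ) : ℝ) ≤
      2 * P * ((6 * H * Real.sqrt H + 4 * (H : ℝ) ^ 2 * (1 / ((α.natAbs : ℕ) : ℝ))) *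
        (1 + Real.log Zm) + 2 * (Z α.natAbs : ℝ)) := by
    intro α hα
    obtain ⟨a0, a1⟩ := hIm α hα
    have hk : 1 ≤ α.natAbs := Int.natAbs_pos.2 a0
    set k := α.natAbs with hkd
    set g : ℕ → ℝ := fun m => P * (6 * H * Real.sqrt H * (1 / m) +
      4 * (H : ℝ) ^ 2 * (1 / k) * (1 / m) + 2) with hg
    have hg0 : ∀ m, 0 ≤ g m := by
      intro m
      rw [hg]
      positivity
    have c1 : ∑ x ∈ J α, ((Wn f H k x.natAbs : ℕ) : ℝ) ≤ ∑ x ∈ J α, g x.natAbs := by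
      refine Finset.sum_le_sum fun x hx => ?_
      have d1 := hx2 α hα x hx
      have d2 := (hJm α x hx).2
      refine Wn_le f H k x.natAbs hH hk (Int.natAbs_pos.2 (by rintro rfl; simp at d1)) ?_
      zify
      rw [hkd, Int.natCast_natAbs]
      exact d2
    have c2 : ∑ x ∈ J α, g x.natAbs ≤ 2 * ∑ m ∈ Finset.Icc 1 (Z k), g m := by
      refine sum_natAbs (Z k) (J α) (fun x hx => ?_) g hg0
      have d1 := hx2 α hα x hx
      have d2 := (hJm α x hx).1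
      refine ⟨by rintro rfl; simp at d1, ?_⟩
      rw [Int.abs_eq_natAbs] at d2
      exact_mod_cast d2
    have c3 : ∑ m ∈ Finset.Icc 1 (Z k), g m = P * ((6 * H * Real.sqrt H +
        4 * (H : ℝ) ^ 2 * (1 / k)) * ∑ m ∈ Finset.Icc 1 (Z k), (1 : ℝ) / m + 2 * (Z k : ℝ)) := by
      rw [hg, ← Finset.mul_sum, Finset.sum_add_distrib, Finset.sum_const, Nat.card_Icc,
        nsmul_eq_mul, Finset.mul_sum (f := fun m : ℕ => (1 : ℝ) / m)]
      congr 1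
      congr 1
      · refine Finset.sum_congr rfl fun m _ => ?_
        ring
      · rw [Nat.add_sub_cancel]
        ring
    have c4 : ∑ m ∈ Finset.Icc 1 (Z k), (1 : ℝ) / m ≤ 1 + Real.log Zm := by
      refine (Finset.sum_le_sum_of_subset_of_nonneg (Finset.Icc_subset_Icc le_rfl (hZ k hk))
        (fun _ _ _ => by positivity)).trans (harm_le Zm)
    have c5 : (0 : ℝ) ≤ 6 * H * Real.sqrt H + 4 * (H : ℝ) ^ 2 * (1 / k) := by positivity
    calc _ ≤ _ := c1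
      _ ≤ _ := c2
      _ = 2 * P * ((6 * H * Real.sqrt H + 4 * (H : ℝ) ^ 2 * (1 / k)) *
          ∑ m ∈ Finset.Icc 1 (Z k), (1 : ℝ) / m + 2 * (Z k : ℝ)) := by rw [c3]; ring
      _ ≤ _ := by
          refine mul_le_mul_of_nonneg_left ?_ (by positivity)
          have := mul_le_mul_of_nonneg_left c4 c5
          linarith
  have hLm : 0 ≤ 1 + Real.log Zm := by
    have := Real.log_natCast_nonneg Zm
    linarith
  have h3 : ((Mid f H Z).ncard : ℝ) ≤ ∑ α ∈ I, (fun k : ℕ => 2 * P * ((6 * H * Real.sqrt H +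
      4 * (H : ℝ) ^ 2 * (1 / (k : ℝ))) * (1 + Real.log Zm) + 2 * (Z k : ℝ))) α.natAbs :=
    h2.trans (Finset.sum_le_sum hlogm)
  have h4 := sum_natAbs H I (fun α hα => by
    obtain ⟨a0, a1⟩ := hIm α hα
    refine ⟨a0, ?_⟩
    rw [Int.abs_eq_natAbs] at a1
    exact_mod_cast a1) (fun k : ℕ => 2 * P * ((6 * H * Real.sqrt H +
      4 * (H : ℝ) ^ 2 * (1 / (k : ℝ))) * (1 + Real.log Zm) + 2 * (Z k : ℝ))) (fun k => by
      positivity)
  refine (h3.trans h4).trans ?_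
  have h5 : ∑ k ∈ Finset.Icc 1 H, 2 * P * ((6 * H * Real.sqrt H +
      4 * (H : ℝ) ^ 2 * (1 / (k : ℝ))) * (1 + Real.log Zm) + 2 * (Z k : ℝ)) =
      2 * P * ((6 * H * Real.sqrt H * H + 4 * (H : ℝ) ^ 2 * ∑ k ∈ Finset.Icc 1 H, (1 : ℝ) / k) *
        (1 + Real.log Zm) + 2 * ∑ k ∈ Finset.Icc 1 H, (Z k : ℝ)) := by
    rw [← Finset.mul_sum, Finset.sum_add_distrib, ← Finset.sum_mul, Finset.sum_add_distrib,
      Finset.sum_const, Nat.card_Icc, nsmul_eq_mul, Nat.add_sub_cancel, ← Finset.mul_sum,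
      ← Finset.mul_sum]
    ring
  have h6 := harm_le H
  have h7 : 0 ≤ Real.log H := Real.log_nonneg hH1
  have hs1 : 1 ≤ Real.sqrt H := Real.one_le_sqrt.2 hH1
  have h8 : 6 * H * Real.sqrt H * H + 4 * (H : ℝ) ^ 2 * ∑ k ∈ Finset.Icc 1 H, (1 : ℝ) / k ≤
      10 * (H : ℝ) ^ 2 * Real.sqrt H * (1 + Real.log H) := by
    have i1 : 4 * (H : ℝ) ^ 2 * ∑ k ∈ Finset.Icc 1 H, (1 : ℝ) / k ≤
        4 * (H : ℝ) ^ 2 * (1 + Real.log H) := mul_le_mul_of_nonneg_left h6 (by positivity)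
    have i2 : 4 * (H : ℝ) ^ 2 * (1 + Real.log H) ≤
        4 * (H : ℝ) ^ 2 * (1 + Real.log H) * Real.sqrt H := le_mul_of_one_le_right (by positivity) hs1
    have i3 : 6 * (H : ℝ) ^ 2 * Real.sqrt H ≤ 6 * (H : ℝ) ^ 2 * Real.sqrt H * (1 + Real.log H) :=
      le_mul_of_one_le_right (by positivity) (by linarith)
    nlinarith
  calc 2 * ∑ k ∈ Finset.Icc 1 H, 2 * P * ((6 * H * Real.sqrt H +
      4 * (H : ℝ) ^ 2 * (1 / (k : ℝ))) * (1 + Real.log Zm) + 2 * (Z k : ℝ))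
      = 4 * P * ((6 * H * Real.sqrt H * H + 4 * (H : ℝ) ^ 2 * ∑ k ∈ Finset.Icc 1 H, (1 : ℝ) / k) *
        (1 + Real.log Zm) + 2 * ∑ k ∈ Finset.Icc 1 H, (Z k : ℝ)) := by rw [h5]; ring
    _ ≤ 4 * P * (10 * (H : ℝ) ^ 2 * Real.sqrt H * (1 + Real.log H) *
        (1 + Real.log Zm) + 2 * ∑ k ∈ Finset.Icc 1 H, (Z k : ℝ)) := by
        refine mul_le_mul_of_nonneg_left ?_ (by positivity)
        have := mul_le_mul_of_nonneg_right h8 hLm
        linarith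
    _ = _ := by rw [hP]; ring

open Pool.Agent.Helper32.FM (Thr)

/-- the points which are not above the threshold -/
def Bel (d K H : ℕ) : Set ((Fin (d + 1) → ℤ) × ℤ × ℤ) :=
  {p | (∀ i, |p.1 i| ≤ (H : ℤ)) ∧ p.1 (Fin.last d) ≠ 0 ∧ ¬ Thr K H p.1 |p.2.1| ∧
    p.2.2 ^ 2 = ∑ i, p.1 i * p.2.1 ^ (i : ℕ)}

/-- the bound for `|x|` -/
def Zf (f K H k : ℕ) : ℕ :=
  4 * H + if f = 1 then Nat.sqrt (K * H ^ 5) / k else Nat.sqrt (Nat.sqrt (K * H ^ 7))

theorem bel_sub (f K H : ℕ) (hH : 1 ≤ H) :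
    Bel (f + 2) K H ⊆ Small (f + 2) 4 H ∪ Mid f H (Zf f K H) := by
  rintro ⟨a, x, y⟩ ⟨h1, h2, h3, h4⟩
  simp only at h1 h2 h3 h4
  by_cases hs : |x| * |a (Fin.last (f + 2))| ≤ 4 * (H : ℤ)
  · left
    refine ⟨h1, h2, ?_, h4⟩
    exact_mod_cast hs
  · right
    push Not at hs
    have hs' : 4 * (H : ℤ) < |a (Fin.last (f + 2))| * |x| := by
      have := mul_comm |x| |a (Fin.last (f + 2))|
      linarith
    refine ⟨h1, h2, hs', ?_, h4⟩
    show |x| ≤ (Zf f K H (a (Fin.last (f + 2))).natAbs : ℤ)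
    set k := (a (Fin.last (f + 2))).natAbs with hk
    have hka : |a (Fin.last (f + 2))| = (k : ℤ) := Int.abs_eq_natAbs _
    have hk1 : 1 ≤ k := Int.natAbs_pos.2 h2
    rw [Int.abs_eq_natAbs x]
    set m := x.natAbs with hm
    have hxm : |x| = (m : ℤ) := Int.abs_eq_natAbs _
    rw [hxm] at h3 hs
    rw [hka] at hs
    unfold Thr at h3
    rw [hka] at h3
    push Not at h3
    by_cases hm4 : 4 * (H : ℤ) ≤ (m : ℤ)
    · have h5 := h3 hm4 (by omega)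
      unfold Zf
      by_cases hf1 : f = 1
      · subst hf1
        rw [if_pos rfl]
        rw [if_pos (by norm_num)] at h5
        push Not at h5
        have h6 : (m * k) ^ 2 ≤ K * H ^ 5 := by
          have : ((m * k) ^ 2 : ℤ) ≤ K * H ^ 5 := h5.le
          exact_mod_cast this
        have h7 : m * k ≤ Nat.sqrt (K * H ^ 5) := Nat.le_sqrt'.2 h6
        have h8 : m ≤ Nat.sqrt (K * H ^ 5) / k := (Nat.le_div_iff_mul_le hk1).2 h7
        have h9 : m ≤ 4 * H + Nat.sqrt (K * H ^ 5) / k := h8.trans (Nat.le_add_left _ _)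
        exact_mod_cast h9
      · rw [if_neg hf1]
        rw [if_neg (by omega)] at h5
        push Not at h5
        have h6 : (m ^ 2) ^ 2 ≤ K * H ^ 7 := by
          have : (((m : ℤ) ^ 2) ^ 2 : ℤ) ≤ K * H ^ 7 := by
            rw [← pow_mul]
            exact h5.le
          exact_mod_cast this
        have h7 : m ^ 2 ≤ Nat.sqrt (K * H ^ 7) := Nat.le_sqrt'.2 h6
        have h8 : m ≤ Nat.sqrt (Nat.sqrt (K * H ^ 7)) := Nat.le_sqrt'.2 h7
        have h9 : m ≤ 4 * H + Nat.sqrt (Nat.sqrt (K * H ^ 7)) := h8.trans (Nat.le_add_left _ _)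
        exact_mod_cast h9
    · unfold Zf
      have h9 : m ≤ 4 * H + (if f = 1 then Nat.sqrt (K * H ^ 5) / k
        else Nat.sqrt (Nat.sqrt (K * H ^ 7))) := by
        refine le_trans ?_ (Nat.le_add_right _ _)
        omega
      exact_mod_cast h9

theorem below_thr (d : ℕ) (hd : 3 ≤ d) (K : ℕ) : ∃ C' : ℝ, 1 ≤ C' ∧ ∀ H : ℕ, 1 ≤ H →
    (Bel d K H).Finite ∧ ((Bel d K H).ncard : ℝ) ≤
      C' * (H : ℝ) ^ (d + 1) * (1 + Real.log H) ^ 2 * (H : ℝ) ^ (-(1 / 4) : ℝ) := by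
  obtain ⟨f, rfl⟩ : ∃ f, d = f + 2 := ⟨d - 2, by omega⟩
  have hf : 1 ≤ f := by omega
  obtain ⟨C1, hC1, hsmall⟩ := small_points (f + 2) 4 (by omega)
  refine ⟨C1 + 8 * 3 ^ f * (10 * (K + 10) + 2 * (K + 5)), ?_, fun H hH => ?_⟩
  · have h1 : (0 : ℝ) ≤ 3 ^ f := by positivity
    have h2 : (0 : ℝ) ≤ K := Nat.cast_nonneg _
    nlinarith [mul_nonneg h1 h2]
  obtain ⟨hs1, hs2⟩ := hsmall H hH
  have hH1 : (1 : ℝ) ≤ H := by exact_mod_cast hH
  have hH0 : (0 : ℝ) < H := by linarith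
  have hK0 : (0 : ℝ) ≤ K := Nat.cast_nonneg _
  -- the number u = H^(1/4)
  obtain ⟨u, hu⟩ : ∃ u : ℝ, u = (H : ℝ) ^ (1 / 4 : ℝ) := ⟨_, rfl⟩
  have hu1 : 1 ≤ u := by
    rw [hu]
    exact Real.one_le_rpow hH1 (by norm_num)
  have hu0 : 0 < u := by linarith
  have hu4 : u ^ 4 = (H : ℝ) := by
    rw [hu, ← Real.rpow_natCast, ← Real.rpow_mul hH0.le]
    norm_num
  have hui : (H : ℝ) ^ (-(1 / 4) : ℝ) = 1 / u := by
    rw [Real.rpow_neg hH0.le, ← hu]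
    exact (one_div u).symm
  have hsq : Real.sqrt H = u ^ 2 := by
    rw [← hu4, show u ^ 4 = (u ^ 2) ^ 2 by ring, Real.sqrt_sq (by positivity)]
  set L : ℝ := 1 + Real.log H with hL
  have hL1 : 1 ≤ L := by
    have := Real.log_nonneg hH1
    linarith
  -- bounds for Zf
  set Zm : ℕ := 4 * H + Nat.sqrt (K * H ^ 7) with hZm
  have hZle : ∀ k, 1 ≤ k → Zf f K H k ≤ Zm := by
    intro k hk
    unfold Zf
    rw [hZm]
    refine Nat.add_le_add_left ?_ _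
    split_ifs
    · refine (Nat.div_le_self _ _).trans (Nat.sqrt_le_sqrt ?_)
      exact Nat.mul_le_mul_left _ (Nat.pow_le_pow_right hH (by norm_num))
    · exact Nat.sqrt_le_self _
  have hZmr : (Zm : ℝ) ≤ (K + 5) * (H : ℝ) ^ 7 := by
    have e1 : Zm ≤ (K + 5) * H ^ 7 := by
      have e2 : Nat.sqrt (K * H ^ 7) ≤ K * H ^ 7 := Nat.sqrt_le_self _
      have e3 : H ≤ H ^ 7 := Nat.le_self_pow (by norm_num) _
      rw [hZm]
      nlinarith
    exact_mod_cast e1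
  have hlog : 1 + Real.log Zm ≤ (K + 10) * L := by
    have hZm0 : (0 : ℝ) < Zm := by
      have : 0 < Zm := by rw [hZm]; omega
      exact_mod_cast this
    have e1 : Real.log Zm ≤ Real.log ((K + 5) * (H : ℝ) ^ 7) := Real.log_le_log hZm0 hZmr
    rw [Real.log_mul (by positivity) (by positivity), Real.log_pow] at e1
    have e2 : Real.log ((K : ℝ) + 5) ≤ K + 4 := by
      have := Real.log_le_sub_one_of_pos (show (0 : ℝ) < (K : ℝ) + 5 by positivity)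
      linarith
    have e3 : 0 ≤ Real.log H := Real.log_nonneg hH1
    push_cast at e1
    rw [hL]
    nlinarith [mul_nonneg hK0 e3]
  have hsumZ : ∑ k ∈ Finset.Icc 1 H, (Zf f K H k : ℝ) ≤ (K + 5) * (H : ℝ) ^ 3 * (1 / u) * L := by
    have hHu : (H : ℝ) ^ 2 ≤ (H : ℝ) ^ 3 * (1 / u) := by
      rw [mul_one_div, le_div_iff₀ hu0]
      have : u ≤ H := by
        rw [← hu4]
        nlinarith [pow_le_pow_left₀ (by norm_num : (0 : ℝ) ≤ 1) hu1 3]
      nlinarith [sq_nonneg (H : ℝ)]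
    have hK1 : Real.sqrt K ≤ K + 1 := by
      rw [Real.sqrt_le_left (by positivity)]
      nlinarith
    have hstep : ∑ k ∈ Finset.Icc 1 H, (Zf f K H k : ℝ) ≤
        4 * (H : ℝ) ^ 2 + (K + 1) * (H : ℝ) ^ 3 * (1 / u) * L := by
      have e0 : ∑ k ∈ Finset.Icc 1 H, (Zf f K H k : ℝ) = 4 * (H : ℝ) ^ 2 +
          ∑ k ∈ Finset.Icc 1 H, ((if f = 1 then Nat.sqrt (K * H ^ 5) / k
            else Nat.sqrt (Nat.sqrt (K * H ^ 7)) : ℕ) : ℝ) := by
        have : ∀ k ∈ Finset.Icc 1 H, (Zf f K H k : ℝ) = 4 * (H : ℝ) +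
            ((if f = 1 then Nat.sqrt (K * H ^ 5) / k
            else Nat.sqrt (Nat.sqrt (K * H ^ 7)) : ℕ) : ℝ) := by
          intro k _
          unfold Zf
          push_cast
          rfl
        rw [Finset.sum_congr rfl this, Finset.sum_add_distrib, Finset.sum_const, Nat.card_Icc,
          nsmul_eq_mul, Nat.add_sub_cancel]
        ring
      rw [e0]
      refine add_le_add le_rfl ?_
      by_cases hf1 : f = 1
      · have e1 : ∀ k ∈ Finset.Icc 1 H, ((if f = 1 then Nat.sqrt (K * H ^ 5) / k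
            else Nat.sqrt (Nat.sqrt (K * H ^ 7)) : ℕ) : ℝ) ≤
            (K + 1) * (H : ℝ) ^ 3 * (1 / u) * (1 / k) := by
          intro k _
          rw [if_pos hf1]
          have a1 : ((Nat.sqrt (K * H ^ 5) / k : ℕ) : ℝ) ≤ ((Nat.sqrt (K * H ^ 5) : ℕ) : ℝ) / k :=
            Nat.cast_div_le
          have a2 : ((Nat.sqrt (K * H ^ 5) : ℕ) : ℝ) ≤ Real.sqrt ((K * H ^ 5 : ℕ) : ℝ) :=
            Real.nat_sqrt_le_real_sqrt
          have a3 : Real.sqrt ((K * H ^ 5 : ℕ) : ℝ) = Real.sqrt K * ((H : ℝ) ^ 2 * u ^ 2) := by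
            push_cast
            have b1 : (H : ℝ) ^ 5 = ((H : ℝ) ^ 2 * u ^ 2) ^ 2 := by
              calc (H : ℝ) ^ 5 = (H : ℝ) ^ 4 * (H : ℝ) := by ring
                _ = (H : ℝ) ^ 4 * u ^ 4 := by rw [hu4]
                _ = _ := by ring
            rw [Real.sqrt_mul hK0, b1, Real.sqrt_sq (by positivity)]
          have a4 : (H : ℝ) ^ 2 * u ^ 2 ≤ (H : ℝ) ^ 3 * (1 / u) := by
            rw [mul_one_div, le_div_iff₀ hu0]
            have : u ^ 3 ≤ H := by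
              rw [← hu4]
              nlinarith [pow_pos hu0 3]
            nlinarith [sq_nonneg (H : ℝ)]
          have a5 : ((Nat.sqrt (K * H ^ 5) : ℕ) : ℝ) ≤ (K + 1) * ((H : ℝ) ^ 3 * (1 / u)) := by
            rw [a3] at a2
            refine a2.trans (mul_le_mul hK1 a4 (by positivity) (by positivity))
          calc ((Nat.sqrt (K * H ^ 5) / k : ℕ) : ℝ) ≤ _ := a1
            _ ≤ ((K + 1) * ((H : ℝ) ^ 3 * (1 / u))) / k :=
                div_le_div_of_nonneg_right a5 (Nat.cast_nonneg _)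
            _ = _ := by ring
        refine (Finset.sum_le_sum e1).trans ?_
        rw [← Finset.mul_sum]
        exact mul_le_mul_of_nonneg_left (harm_le H) (by positivity)
      · have e1 : ∀ k ∈ Finset.Icc 1 H, ((if f = 1 then Nat.sqrt (K * H ^ 5) / k
            else Nat.sqrt (Nat.sqrt (K * H ^ 7)) : ℕ) : ℝ) ≤
            (K + 1) * (H : ℝ) ^ 2 * (1 / u) := by
          intro k _
          rw [if_neg hf1]
          have a1 : Nat.sqrt (Nat.sqrt (K * H ^ 7)) ^ 4 ≤ K * H ^ 7 := by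
            have b1 : Nat.sqrt (Nat.sqrt (K * H ^ 7)) ^ 2 ≤ Nat.sqrt (K * H ^ 7) := Nat.sqrt_le' _
            have b2 : Nat.sqrt (K * H ^ 7) ^ 2 ≤ K * H ^ 7 := Nat.sqrt_le' _
            calc Nat.sqrt (Nat.sqrt (K * H ^ 7)) ^ 4 =
                  (Nat.sqrt (Nat.sqrt (K * H ^ 7)) ^ 2) ^ 2 := by rw [← pow_mul]
              _ ≤ Nat.sqrt (K * H ^ 7) ^ 2 := Nat.pow_le_pow_left b1 2
              _ ≤ _ := b2
          have a2 : (((Nat.sqrt (Nat.sqrt (K * H ^ 7)) : ℕ) : ℝ)) ^ 4 ≤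
              ((K + 1) * (H : ℝ) ^ 2 * (1 / u)) ^ 4 := by
            have c1 : (((Nat.sqrt (Nat.sqrt (K * H ^ 7)) : ℕ) : ℝ)) ^ 4 ≤ K * (H : ℝ) ^ 7 := by
              exact_mod_cast a1
            have c2 : ((K + 1) * (H : ℝ) ^ 2 * (1 / u)) ^ 4 = (K + 1) ^ 4 * (H : ℝ) ^ 7 := by
              rw [mul_pow, mul_pow, div_pow, one_pow, hu4, ← pow_mul]
              field_simp
            rw [c2]
            refine c1.trans (mul_le_mul_of_nonneg_right ?_ (by positivity))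
            nlinarith [mul_nonneg hK0 hK0, mul_nonneg hK0 (mul_nonneg hK0 hK0),
              mul_nonneg (mul_nonneg hK0 hK0) (mul_nonneg hK0 hK0)]
          exact (pow_le_pow_iff_left₀ (Nat.cast_nonneg _) (by positivity) (by norm_num)).1 a2
        refine (Finset.sum_le_sum e1).trans ?_
        rw [Finset.sum_const, Nat.card_Icc, nsmul_eq_mul, Nat.add_sub_cancel]
        have : (0 : ℝ) ≤ (K + 1) * (H : ℝ) ^ 3 * (1 / u) := by positivity
        nlinarith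
    have h3 : 4 * (H : ℝ) ^ 2 ≤ 4 * ((H : ℝ) ^ 3 * (1 / u) * L) := by
      have : (H : ℝ) ^ 3 * (1 / u) ≤ (H : ℝ) ^ 3 * (1 / u) * L :=
        le_mul_of_one_le_right (by positivity) hL1
      linarith
    calc _ ≤ _ := hstep
      _ ≤ 4 * ((H : ℝ) ^ 3 * (1 / u) * L) + (K + 1) * (H : ℝ) ^ 3 * (1 / u) * L := by linarith
      _ = _ := by ring
  obtain ⟨hm1, hm2⟩ := mid_count f H hf hH (Zf f K H) Zm hZle
  have hsub := bel_sub f K H hH
  have hfin := (hs1.union hm1).subset hsub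
  refine ⟨hfin, ?_⟩
  have hcard : ((Bel (f + 2) K H).ncard : ℝ) ≤ ((Small (f + 2) 4 H).ncard : ℝ) +
      ((Mid f H (Zf f K H)).ncard : ℝ) := by
    have := (Set.ncard_le_ncard hsub (hs1.union hm1)).trans (Set.ncard_union_le _ _)
    exact_mod_cast this
  have hHf : (0 : ℝ) < (H : ℝ) ^ f := by positivity
  have p1 : ((Small (f + 2) 4 H).ncard : ℝ) ≤
      C1 * (H : ℝ) ^ (f + 2 + 1) * L ^ 2 * (1 / u) := by
    refine hs2.trans ?_
    rw [hsq]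
    have q1 : u ^ 2 ≤ (H : ℝ) * (1 / u) := by
      rw [mul_one_div, le_div_iff₀ hu0, ← hu4]
      nlinarith [pow_pos hu0 3]
    have q2 : L ≤ L ^ 2 := by nlinarith
    calc C1 * (H : ℝ) ^ (f + 2) * u ^ 2 * L ≤ C1 * (H : ℝ) ^ (f + 2) * ((H : ℝ) * (1 / u)) * L ^ 2 := by
          refine mul_le_mul (mul_le_mul_of_nonneg_left q1 (by positivity)) q2 (by linarith)
            (by positivity)
      _ = _ := by rw [pow_succ (H : ℝ) (f + 2)]; ring
  have p2 : ((Mid f H (Zf f K H)).ncard : ℝ) ≤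
      8 * 3 ^ f * (10 * (K + 10) + 2 * (K + 5)) * (H : ℝ) ^ (f + 2 + 1) * L ^ 2 * (1 / u) := by
    refine hm2.trans ?_
    have q1 : 10 * (H : ℝ) ^ 2 * Real.sqrt H * L * (1 + Real.log Zm) ≤
        10 * (K + 10) * (H : ℝ) ^ 3 * (1 / u) * L ^ 2 := by
      rw [hsq]
      have r1 : (H : ℝ) ^ 2 * u ^ 2 ≤ (H : ℝ) ^ 3 * (1 / u) := by
        rw [mul_one_div, le_div_iff₀ hu0]
        have : u ^ 3 ≤ H := by
          rw [← hu4]
          nlinarith [pow_pos hu0 3]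
        nlinarith [sq_nonneg (H : ℝ)]
      calc 10 * (H : ℝ) ^ 2 * u ^ 2 * L * (1 + Real.log Zm) ≤
            10 * (H : ℝ) ^ 2 * u ^ 2 * L * ((K + 10) * L) :=
            mul_le_mul_of_nonneg_left hlog (by positivity)
        _ = 10 * (K + 10) * ((H : ℝ) ^ 2 * u ^ 2) * L ^ 2 := by ring
        _ ≤ 10 * (K + 10) * ((H : ℝ) ^ 3 * (1 / u)) * L ^ 2 :=
            mul_le_mul_of_nonneg_right (mul_le_mul_of_nonneg_left r1 (by positivity))
              (by positivity)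
        _ = _ := by ring
    have q2 : 2 * ∑ k ∈ Finset.Icc 1 H, (Zf f K H k : ℝ) ≤
        2 * (K + 5) * (H : ℝ) ^ 3 * (1 / u) * L ^ 2 := by
      have : (K + 5) * (H : ℝ) ^ 3 * (1 / u) * L ≤ (K + 5) * (H : ℝ) ^ 3 * (1 / u) * L ^ 2 := by
        refine mul_le_mul_of_nonneg_left ?_ (by positivity)
        nlinarith
      linarith
    calc 8 * (3 * (H : ℝ)) ^ f * (10 * (H : ℝ) ^ 2 * Real.sqrt H * L *
        (1 + Real.log Zm) + 2 * ∑ k ∈ Finset.Icc 1 H, (Zf f K H k : ℝ))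
        ≤ 8 * (3 * (H : ℝ)) ^ f * (10 * (K + 10) * (H : ℝ) ^ 3 * (1 / u) * L ^ 2 +
          2 * (K + 5) * (H : ℝ) ^ 3 * (1 / u) * L ^ 2) :=
          mul_le_mul_of_nonneg_left (add_le_add q1 q2) (by positivity)
      _ = _ := by
          rw [mul_pow, show f + 2 + 1 = f + 3 by omega, pow_add (H : ℝ) f 3]
          ring
  rw [hui]
  calc ((Bel (f + 2) K H).ncard : ℝ) ≤ _ := hcard
    _ ≤ _ := add_le_add p1 p2
    _ = _ := by ring

end Pool.Agent.Helper5.FM
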