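import Pool.Agent.Helper5.FM.Poly
import Pool.Agent.Helper38.FM.Points

set_option autoImplicit false

/-!
# FM: the first moment
-/

namespace Pool.Agent.Helper5.FM

open Polynomial Pool.Agent.Helper32.DZ Pool.Agent.Helper32.FM Pool.Agent.Helper38.FM

theorem class_even (m : ℕ) (hm : Odd m) : ∃ C0 c : ℝ, 0 < C0 ∧ 0 < c ∧ ∀ H : ℕ, 2 ≤ H →
    ClassBd (m + 1) ∅ H (C0 * (H : ℝ) ^ (m + 2) * (Real.log H) ^ (-c)) := by
  obtain ⟨C, hC, h⟩ := even_points m hm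
  refine ⟨C, 1 / 64, by linarith, by norm_num, fun H hH T hT hone => ?_⟩
  exact h H hH T (fun p hp => ⟨(hT p hp).1, (hT p hp).2.1, (hT p hp).2.2.2⟩) hone

theorem class_odd (m : ℕ) (hm : Even m) (h2 : 2 ≤ m) : ∃ C0 c : ℝ, 0 < C0 ∧ 0 < c ∧
    ∀ H : ℕ, 2 ≤ H → ∃ E : Finset ℤ, (E.card : ℝ) ≤ C0 * H * (Real.log H) ^ (-c) ∧
    ClassBd (m + 1) E H (C0 * (H : ℝ) ^ (m + 2) * (Real.log H) ^ (-c)) := by
  classical
  obtain ⟨C, β, γ, hC, hβ, hγ, h⟩ := odd_points m hm h2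
  refine ⟨C, γ, by linarith, hγ, fun H hH => ?_⟩
  obtain ⟨h3, h4⟩ := h H hH
  have hf : {α : ℤ | α ≠ 0 ∧ |α| ≤ (H : ℤ) ∧ ¬ ∃ q : ℕ, Squarefree q ∧ (q : ℤ) ∣ α ∧
      (H : ℝ) ≤ (Real.log H) ^ β * q}.Finite := by
    refine (Set.finite_Icc (-(H : ℤ)) H).subset ?_
    rintro α ⟨-, hα, -⟩
    exact abs_le.1 hα
  refine ⟨hf.toFinset, ?_, fun T hT hone => ?_⟩
  · rw [← Set.ncard_eq_toFinset_card _ hf]
    exact h3
  · refine h4 T (fun p hp => ?_) hone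
    obtain ⟨k1, k2, k3, k4⟩ := hT p hp
    refine ⟨k1, k2, k4, ?_⟩
    by_contra hq
    exact k3 (hf.mem_toFinset.2 ⟨k2.1, k1 _, hq⟩)

/-- the first moment -/
theorem first_moment_all (d : ℕ) (hd : 3 ≤ d) : ∃ C c : ℝ, 0 < C ∧ 0 < c ∧ ∀ H : ℕ, 2 ≤ H →
    ∃ E : Finset ℤ, (Even d → E = ∅) ∧
      (E.card : ℝ) ≤ C * H / (Real.log H) ^ c ∧ (PolPts d E H).Finite ∧
      ((PolPts d E H).ncard : ℝ) ≤ C * (H : ℝ) ^ (d + 1) / (Real.log H) ^ c := by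
  obtain ⟨m, rfl⟩ : ∃ m, d = m + 1 := ⟨d - 1, by omega⟩
  rcases Nat.even_or_odd m with hm | hm
  · obtain ⟨C0, c, hC0, hc, h⟩ := class_odd m hm (by omega)
    obtain ⟨C, hC, hfm⟩ := first_moment (m + 1) hd C0 C0 c hC0 hC0 hc (fun H hH => by
      obtain ⟨E, h1, h2⟩ := h H hH
      refine ⟨E, fun he => ?_, h1, h2⟩
      exact absurd he (by
        rw [Nat.not_even_iff_odd]
        exact hm.add_one))
    exact ⟨C, c, hC, hc, hfm⟩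
  · obtain ⟨C0, c, hC0, hc, h⟩ := class_even m hm
    obtain ⟨C, hC, hfm⟩ := first_moment (m + 1) hd C0 C0 c hC0 hC0 hc (fun H hH => by
      refine ⟨∅, fun _ => rfl, ?_, h H hH⟩
      have hHr : (2 : ℝ) ≤ H := by exact_mod_cast hH
      have hL : 0 < Real.log H := Real.log_pos (by linarith)
      have := Real.rpow_pos_of_pos hL (-c)
      rw [Finset.card_empty, Nat.cast_zero]
      positivity)
    exact ⟨C, c, hC, hc, hfm⟩

end Pool.Agent.Helper5.FM
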