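import Mathlib

set_option autoImplicit false

/-!
# FM-A: small points, and the count by a transversal

`small_points`: the triples `(a, x, y)` with `|a_i| ≤ H`, `a_d ≠ 0`, `y² = ∑ a_i x^i`, `|x| |a_d| ≤ C H` are at most
`C' H^d √H (1 + log H)`.
-/

namespace Pool.Agent.Helper5.FM

/-- the nonnegative square roots of the integers in an interval of length `2H` -/
theorem ycount_pos (T : ℤ) (H : ℕ) (s : Finset ℤ) (hs : ∀ y ∈ s, 0 ≤ y ∧ |y ^ 2 - T| ≤ (H : ℤ)) :
    s.card ≤ Nat.sqrt (2 * H) + 1 := by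
  rcases s.eq_empty_or_nonempty with rfl | hne
  · simp
  · obtain ⟨m, hm, hmin⟩ := Finset.exists_min_image s id hne
    have h1 : s ⊆ Finset.Icc m (m + Nat.sqrt (2 * H)) := by
      intro y hy
      have hle : m ≤ y := hmin y hy
      rw [Finset.mem_Icc]
      refine ⟨hle, ?_⟩
      obtain ⟨y0, hy1⟩ := hs y hy
      obtain ⟨m0, hm1⟩ := hs m hm
      rw [abs_le] at hy1 hm1
      have h2 : (y - m) ^ 2 ≤ 2 * (H : ℤ) := by nlinarith
      have h3 : (y - m).toNat ≤ Nat.sqrt (2 * H) := by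
        rw [Nat.le_sqrt']
        zify
        rw [Int.toNat_of_nonneg (by omega)]
        exact h2
      omega
    refine (Finset.card_le_card h1).trans ?_
    rw [Int.card_Icc]
    omega

theorem ycount (T : ℤ) (H : ℕ) (s : Finset ℤ) (hs : ∀ y ∈ s, |y ^ 2 - T| ≤ (H : ℤ)) :
    s.card ≤ 2 * (Nat.sqrt (2 * H) + 1) := by
  classical
  have h1 : s = s.filter (fun y => 0 ≤ y) ∪ s.filter (fun y => ¬ 0 ≤ y) :=
    (Finset.filter_union_filter_not_eq _ s).symm
  have h2 : (s.filter fun y => 0 ≤ y).card ≤ Nat.sqrt (2 * H) + 1 :=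
    ycount_pos T H _ fun y hy => by
      obtain ⟨a, b⟩ := Finset.mem_filter.1 hy
      exact ⟨b, hs y a⟩
  have h3 : (s.filter fun y => ¬ 0 ≤ y).card ≤ Nat.sqrt (2 * H) + 1 := by
    have h4 : ((s.filter fun y => ¬ 0 ≤ y).image fun y => -y).card =
        (s.filter fun y => ¬ 0 ≤ y).card :=
      Finset.card_image_of_injective _ neg_injective
    rw [← h4]
    refine ycount_pos T H _ fun z hz => ?_
    obtain ⟨y, hy, rfl⟩ := Finset.mem_image.1 hz
    obtain ⟨a, b⟩ := Finset.mem_filter.1 hy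
    have := hs y a
    rw [neg_pow_two]
    exact ⟨by omega, this⟩
  rw [h1]
  refine (Finset.card_union_le _ _).trans ?_
  omega

/-- the boxes -/
theorem box_card' (n H : ℕ) : (Fintype.piFinset fun _ : Fin n => Finset.Icc (-(H : ℤ)) (H : ℤ)).card =
    (2 * H + 1) ^ n := by
  rw [Fintype.card_piFinset, Finset.prod_const, Finset.card_univ, Fintype.card_fin, Int.card_Icc]
  congr 1
  omega

/-- the small points with a fixed leading coefficient -/
def SmallA (d X H : ℕ) (α : ℤ) : Set ((Fin (d + 1) → ℤ) × ℤ × ℤ) :=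
  {p | (∀ i, |p.1 i| ≤ (H : ℤ)) ∧ p.1 (Fin.last d) = α ∧ |p.2.1| ≤ (X : ℤ) ∧
    p.2.2 ^ 2 = ∑ i, p.1 i * p.2.1 ^ (i : ℕ)}

theorem smallA_card (e X H : ℕ) (α : ℤ) : (SmallA (e + 1) X H α).Finite ∧
    (SmallA (e + 1) X H α).ncard ≤
      2 * (Nat.sqrt (2 * H) + 1) * ((2 * X + 1) * (2 * H + 1) ^ e) := by
  classical
  have hfin : (SmallA (e + 1) X H α).Finite := by
    set B : ℤ := ∑ i : Fin (e + 1 + 1), (H : ℤ) * (X : ℤ) ^ (i : ℕ) with hB
    refine (Finset.finite_toSet ((Fintype.piFinset fun _ : Fin (e + 1 + 1) =>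
      Finset.Icc (-(H : ℤ)) (H : ℤ)) ×ˢ
      (Finset.Icc (-(X : ℤ)) (X : ℤ) ×ˢ Finset.Icc (-B) B))).subset ?_
    rintro ⟨a, x, y⟩ ⟨h1, -, h3, h4⟩
    simp only at h1 h3 h4
    rw [Finset.mem_coe, Finset.mem_product, Finset.mem_product, Fintype.mem_piFinset,
      Finset.mem_Icc, Finset.mem_Icc]
    refine ⟨fun i => Finset.mem_Icc.2 (abs_le.1 (h1 i)), abs_le.1 h3, abs_le.1 ?_⟩
    have h5 : y ^ 2 ≤ B := by
      rw [h4, hB]
      refine Finset.sum_le_sum fun i _ => ?_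
      calc a i * x ^ (i : ℕ) ≤ |a i * x ^ (i : ℕ)| := le_abs_self _
        _ = |a i| * |x| ^ (i : ℕ) := by rw [abs_mul, abs_pow]
        _ ≤ (H : ℤ) * (X : ℤ) ^ (i : ℕ) :=
            mul_le_mul (h1 i) (pow_le_pow_left₀ (abs_nonneg _) h3 _) (by positivity) (by positivity)
    have h6 : |y| ≤ y ^ 2 := by
      rcases eq_or_ne y 0 with rfl | hy
      · simp
      · have h7 : 1 ≤ |y| := Int.one_le_abs hy
        rw [← sq_abs]
        nlinarith
    exact h6.trans h5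
  refine ⟨hfin, ?_⟩
  rw [Set.ncard_eq_toFinset_card _ hfin]
  set s := hfin.toFinset with hs
  set g : (Fin (e + 1 + 1) → ℤ) × ℤ × ℤ → ℤ × (Fin e → ℤ) :=
    fun p => (p.2.1, fun i => p.1 i.castSucc.succ) with hg
  have hmem : ∀ p ∈ s, (∀ i, |p.1 i| ≤ (H : ℤ)) ∧ p.1 (Fin.last (e + 1)) = α ∧
      |p.2.1| ≤ (X : ℤ) ∧ p.2.2 ^ 2 = ∑ i, p.1 i * p.2.1 ^ (i : ℕ) := by
    intro p hp
    exact hfin.mem_toFinset.1 hp
  have himg : (s.image g).card ≤ (2 * X + 1) * (2 * H + 1) ^ e := by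
    have h1 : s.image g ⊆ Finset.Icc (-(X : ℤ)) (X : ℤ) ×ˢ
        (Fintype.piFinset fun _ : Fin e => Finset.Icc (-(H : ℤ)) (H : ℤ)) := by
      intro q hq
      obtain ⟨p, hp, rfl⟩ := Finset.mem_image.1 hq
      obtain ⟨a1, -, a3, -⟩ := hmem p hp
      rw [Finset.mem_product, Finset.mem_Icc, Fintype.mem_piFinset]
      exact ⟨abs_le.1 a3, fun i => Finset.mem_Icc.2 (abs_le.1 (a1 _))⟩
    refine (Finset.card_le_card h1).trans ?_
    rw [Finset.card_product, box_card', Int.card_Icc]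
    refine Nat.mul_le_mul_right _ ?_
    omega
  have hfib : ∀ q ∈ s.image g, (s.filter fun p => g p = q).card ≤ 2 * (Nat.sqrt (2 * H) + 1) := by
    intro q _
    set r := s.filter fun p => g p = q with hr
    set T : ℤ := ∑ i : Fin e, q.2 i * q.1 ^ ((i : ℕ) + 1) + α * q.1 ^ (e + 1) with hT
    have hsplit : ∀ p ∈ r, p.2.2 ^ 2 = p.1 0 + T := by
      intro p hp
      obtain ⟨hps, hpg⟩ := Finset.mem_filter.1 hp
      obtain ⟨-, a2, -, a4⟩ := hmem p hps
      have b1 : p.2.1 = q.1 := congrArg Prod.fst hpg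
      have b2 : (fun i : Fin e => p.1 i.castSucc.succ) = q.2 := congrArg Prod.snd hpg
      rw [a4, Fin.sum_univ_succ, Fin.sum_univ_castSucc, hT, ← b2]
      simp only [Fin.val_zero, pow_zero, mul_one, Fin.val_succ, Fin.val_castSucc, Fin.succ_last,
        Fin.val_last, b1]
      rw [show (Fin.last (e + 1)) = Fin.last (e + 1) from rfl, a2]
    have hinj : Set.InjOn (fun p : (Fin (e + 1 + 1) → ℤ) × ℤ × ℤ => p.2.2) (r : Set _) := by
      intro p hp p' hp' heq
      have heq' : p.2.2 = p'.2.2 := heq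
      have c1 := hsplit p hp
      have c2 := hsplit p' hp'
      obtain ⟨hps, hpg⟩ := Finset.mem_filter.1 (Finset.mem_coe.1 hp)
      obtain ⟨hps', hpg'⟩ := Finset.mem_filter.1 (Finset.mem_coe.1 hp')
      have hgg : g p = g p' := hpg.trans hpg'.symm
      have b1 : p.2.1 = p'.2.1 := (congrArg Prod.fst hgg : (g p).1 = (g p').1)
      have b2 : (fun i : Fin e => p.1 i.castSucc.succ) = fun i => p'.1 i.castSucc.succ :=
        (congrArg Prod.snd hgg : (g p).2 = (g p').2)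
      have a2 := (hmem p hps).2.1
      have a2' := (hmem p' hps').2.1
      have h00 : p.1 0 = p'.1 0 := by
        rw [heq'] at c1
        linarith
      have ha : p.1 = p'.1 := by
        funext i
        refine Fin.cases h00 (fun j => ?_) i
        refine Fin.lastCases ?_ (fun k => ?_) j
        · rw [Fin.succ_last, a2, a2']
        · exact congrFun b2 k
      exact Prod.ext ha (Prod.ext b1 heq')
    rw [← Finset.card_image_of_injOn hinj]
    refine ycount T H _ fun y hy => ?_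
    obtain ⟨p, hp, rfl⟩ := Finset.mem_image.1 hy
    have c1 := hsplit p hp
    have c2 := (hmem p (Finset.mem_filter.1 hp).1).1 0
    rw [c1, add_sub_cancel_right]
    exact c2
  have := Finset.card_le_mul_card_image s _ hfib
  exact this.trans (Nat.mul_le_mul_left _ himg)

/-- harmonic sums -/
theorem harm_le (n : ℕ) : ∑ k ∈ Finset.Icc 1 n, (1 : ℝ) / k ≤ 1 + Real.log n := by
  have h := harmonic_le_one_add_log n
  have h2 : ((harmonic n : ℚ) : ℝ) = ∑ k ∈ Finset.Icc 1 n, (1 : ℝ) / k := by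
    rw [harmonic_eq_sum_Icc]
    push_cast
    refine Finset.sum_congr rfl fun k _ => ?_
    rw [one_div]
  rw [← h2]
  exact h

/-- the small points -/
def Small (d C H : ℕ) : Set ((Fin (d + 1) → ℤ) × ℤ × ℤ) :=
  {p | (∀ i, |p.1 i| ≤ (H : ℤ)) ∧ p.1 (Fin.last d) ≠ 0 ∧
    |p.2.1| * |p.1 (Fin.last d)| ≤ (C : ℤ) * (H : ℤ) ∧
    p.2.2 ^ 2 = ∑ i, p.1 i * p.2.1 ^ (i : ℕ)}

theorem small_points (d C : ℕ) (hd : 1 ≤ d) : ∃ C' : ℝ, 1 ≤ C' ∧ ∀ H : ℕ, 1 ≤ H →
    (Small d C H).Finite ∧ ((Small d C H).ncard : ℝ) ≤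
      C' * (H : ℝ) ^ d * Real.sqrt H * (1 + Real.log H) := by
  classical
  obtain ⟨e, rfl⟩ : ∃ e, d = e + 1 := ⟨d - 1, by omega⟩
  refine ⟨2 * 6 * ((2 * C + 1) * 3 ^ e) * 2, ?_, fun H hH => ?_⟩
  · have h1 : (1 : ℝ) ≤ 3 ^ e := one_le_pow₀ (by norm_num)
    have h2 : (0 : ℝ) ≤ C := Nat.cast_nonneg _
    nlinarith
  set I : Finset ℤ := (Finset.Icc (-(H : ℤ)) (H : ℤ)).erase 0 with hI
  have hsub : Small (e + 1) C H ⊆ ⋃ α ∈ I, SmallA (e + 1) (C * H / α.natAbs) H α := by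
    rintro ⟨a, x, y⟩ ⟨h1, h2, h3, h4⟩
    simp only at h1 h2 h3 h4
    rw [Set.mem_iUnion₂]
    refine ⟨a (Fin.last (e + 1)), ?_, h1, rfl, ?_, h4⟩
    · rw [hI, Finset.mem_erase, Finset.mem_Icc]
      exact ⟨h2, abs_le.1 (h1 _)⟩
    · show |x| ≤ ((C * H / (a (Fin.last (e + 1))).natAbs : ℕ) : ℤ)
      have h5 : 0 < (a (Fin.last (e + 1))).natAbs := Int.natAbs_pos.2 h2
      have h6 : x.natAbs ≤ C * H / (a (Fin.last (e + 1))).natAbs := by
        rw [Nat.le_div_iff_mul_le h5]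
        have h7 : ((x.natAbs * (a (Fin.last (e + 1))).natAbs : ℕ) : ℤ) ≤ ((C * H : ℕ) : ℤ) := by
          push_cast
          exact h3
        exact_mod_cast h7
      rw [Int.abs_eq_natAbs]
      exact_mod_cast h6
  have hfin : (⋃ α ∈ I, SmallA (e + 1) (C * H / α.natAbs) H α).Finite :=
    Set.Finite.biUnion (Finset.finite_toSet I) fun α _ => (smallA_card e _ H α).1
  refine ⟨hfin.subset hsub, ?_⟩
  have hH0 : (1 : ℝ) ≤ H := by exact_mod_cast hH
  have h1 : (Small (e + 1) C H).ncard ≤ ∑ α ∈ I,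
      2 * (Nat.sqrt (2 * H) + 1) * ((2 * (C * H / α.natAbs) + 1) * (2 * H + 1) ^ e) := by
    refine (Set.ncard_le_ncard hsub hfin).trans ?_
    refine (Finset.set_ncard_biUnion_le I _).trans ?_
    exact Finset.sum_le_sum fun α _ => (smallA_card e _ H α).2
  have h2 : ((Nat.sqrt (2 * H) + 1 : ℕ) : ℝ) ≤ 6 * Real.sqrt H := by
    have e1 : ((Nat.sqrt (2 * H) : ℕ) : ℝ) ≤ Real.sqrt ((2 * H : ℕ) : ℝ) := Real.nat_sqrt_le_real_sqrt
    have e2 : Real.sqrt ((2 * H : ℕ) : ℝ) ≤ 2 * Real.sqrt H := by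
      rw [Real.sqrt_le_left (by positivity), mul_pow, Real.sq_sqrt (by positivity)]
      push_cast
      linarith
    have e3 : 1 ≤ Real.sqrt H := by
      rw [Real.one_le_sqrt]
      exact hH0
    push_cast
    linarith
  have h3 : ∀ α ∈ I, ((2 * (C * H / α.natAbs) + 1 : ℕ) : ℝ) ≤
      (2 * C + 1) * H * (1 / ((α.natAbs : ℕ) : ℝ)) := by
    intro α hα
    rw [hI, Finset.mem_erase, Finset.mem_Icc] at hα
    have hα0 : 0 < α.natAbs := Int.natAbs_pos.2 hα.1
    have hαr : (0 : ℝ) < ((α.natAbs : ℕ) : ℝ) := by exact_mod_cast hα0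
    have hαH : α.natAbs ≤ H := by omega
    have e1 : ((C * H / α.natAbs : ℕ) : ℝ) ≤ ((C * H : ℕ) : ℝ) / ((α.natAbs : ℕ) : ℝ) :=
      Nat.cast_div_le
    have e2 : (1 : ℝ) ≤ (H : ℝ) / ((α.natAbs : ℕ) : ℝ) := by
      rw [one_le_div hαr]
      exact_mod_cast hαH
    push_cast at e1 ⊢
    calc 2 * ((C * H / α.natAbs : ℕ) : ℝ) + 1 ≤ 2 * ((C : ℝ) * H / ((α.natAbs : ℕ) : ℝ)) +
          (H : ℝ) / ((α.natAbs : ℕ) : ℝ) := by
          push_cast
          linarith
      _ = _ := by ring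
  have h4 : ((2 * H + 1 : ℕ) : ℝ) ^ e ≤ 3 ^ e * (H : ℝ) ^ e := by
    rw [← mul_pow]
    refine pow_le_pow_left₀ (by positivity) ?_ _
    push_cast
    linarith
  have h5 : ∑ α ∈ I, (1 / ((α.natAbs : ℕ) : ℝ)) ≤ 2 * (1 + Real.log H) := by
    have e1 : ∑ α ∈ I, (1 / ((α.natAbs : ℕ) : ℝ)) =
        ∑ k ∈ I.image Int.natAbs, ∑ α ∈ I with α.natAbs = k, (1 / ((α.natAbs : ℕ) : ℝ)) :=
      (Finset.sum_fiberwise_of_maps_to (fun α hα => Finset.mem_image_of_mem _ hα) _).symm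
    have e2 : ∀ k ∈ I.image Int.natAbs, ∑ α ∈ I with α.natAbs = k, (1 / ((α.natAbs : ℕ) : ℝ)) ≤
        2 * (1 / (k : ℝ)) := by
      intro k _
      have f1 : ∑ α ∈ I with α.natAbs = k, (1 / ((α.natAbs : ℕ) : ℝ)) =
          ∑ α ∈ I with α.natAbs = k, (1 / (k : ℝ)) := by
        refine Finset.sum_congr rfl fun α hα => ?_
        rw [(Finset.mem_filter.1 hα).2]
      rw [f1, Finset.sum_const, nsmul_eq_mul]
      have f2 : (I.filter fun α => α.natAbs = k).card ≤ 2 := by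
        have f3 : I.filter (fun α => α.natAbs = k) ⊆ {(k : ℤ), -(k : ℤ)} := by
          intro α hα
          have := (Finset.mem_filter.1 hα).2
          rw [Finset.mem_insert, Finset.mem_singleton]
          omega
        exact (Finset.card_le_card f3).trans Finset.card_le_two
      have f4 : ((I.filter fun α => α.natAbs = k).card : ℝ) ≤ 2 := by exact_mod_cast f2
      exact mul_le_mul_of_nonneg_right f4 (by positivity)
    rw [e1]
    refine (Finset.sum_le_sum e2).trans ?_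
    rw [← Finset.mul_sum]
    refine mul_le_mul_of_nonneg_left ?_ (by norm_num)
    refine le_trans (Finset.sum_le_sum_of_subset_of_nonneg ?_ (fun _ _ _ => by positivity))
      (harm_le H)
    intro k hk
    obtain ⟨α, hα, rfl⟩ := Finset.mem_image.1 hk
    rw [hI, Finset.mem_erase, Finset.mem_Icc] at hα
    rw [Finset.mem_Icc]
    omega
  have h6 : ((Small (e + 1) C H).ncard : ℝ) ≤ ∑ α ∈ I,
      2 * (6 * Real.sqrt H) * (((2 * C + 1) * H * (1 / ((α.natAbs : ℕ) : ℝ))) *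
        (3 ^ e * (H : ℝ) ^ e)) := by
    have e1 : ((Small (e + 1) C H).ncard : ℝ) ≤ ((∑ α ∈ I,
      2 * (Nat.sqrt (2 * H) + 1) * ((2 * (C * H / α.natAbs) + 1) * (2 * H + 1) ^ e) : ℕ) : ℝ) := by
      exact_mod_cast h1
    rw [Nat.cast_sum] at e1
    refine e1.trans (Finset.sum_le_sum fun α hα => ?_)
    rw [Nat.cast_mul, Nat.cast_mul, Nat.cast_mul, Nat.cast_pow]
    refine mul_le_mul ?_ (mul_le_mul (h3 α hα) h4 (by positivity) (by positivity))
      (by positivity) (by positivity)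
    push_cast at h2 ⊢
    linarith
  refine h6.trans ?_
  have h7 : ∑ α ∈ I, 2 * (6 * Real.sqrt H) * (((2 * C + 1) * H * (1 / ((α.natAbs : ℕ) : ℝ))) *
        (3 ^ e * (H : ℝ) ^ e)) = 2 * (6 * Real.sqrt H) * ((2 * C + 1) * H * (3 ^ e * (H : ℝ) ^ e)) *
        ∑ α ∈ I, (1 / ((α.natAbs : ℕ) : ℝ)) := by
    rw [Finset.mul_sum]
    refine Finset.sum_congr rfl fun α _ => ?_
    ring
  rw [h7]
  refine (mul_le_mul_of_nonneg_left h5 (by positivity)).trans (le_of_eq ?_)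
  rw [pow_succ]
  ring

/-- counting with a transversal -/
theorem card_transversal {α : Type*} (S : Finset α) (R : α → α → Prop)
    (hrefl : ∀ s ∈ S, R s s) (hsymm : ∀ s ∈ S, ∀ t ∈ S, R s t → R t s) (N M : ℕ)
    (hN : ∀ t ∈ S, ∀ F ⊆ S, (∀ s ∈ F, R t s) → F.card ≤ N)
    (hM : ∀ T ⊆ S, (∀ x ∈ T, ∀ y ∈ T, R x y → x = y) → T.card ≤ M) : S.card ≤ N * M := by
  classical
  set P : Finset (Finset α) := S.powerset.filter fun T => ∀ x ∈ T, ∀ y ∈ T, R x y → x = y with hP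
  have hPne : P.Nonempty := ⟨∅, by simp [hP]⟩
  obtain ⟨T, hT, hmax⟩ := Finset.exists_max_image P Finset.card hPne
  rw [hP, Finset.mem_filter, Finset.mem_powerset] at hT
  obtain ⟨hTS, hTR⟩ := hT
  have hcov : ∀ s ∈ S, ∃ t ∈ T, R t s := by
    intro s hs
    by_contra hcon
    push Not at hcon
    have hsT : s ∉ T := fun h => hcon s h (hrefl s hs)
    have hin : insert s T ∈ P := by
      rw [hP, Finset.mem_filter, Finset.mem_powerset]
      refine ⟨Finset.insert_subset hs hTS, ?_⟩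
      intro x hx y hy hxy
      rw [Finset.mem_insert] at hx hy
      rcases hx with rfl | hx <;> rcases hy with rfl | hy
      · rfl
      · exact absurd (hsymm _ hs _ (hTS hy) hxy) (hcon y hy)
      · exact absurd hxy (hcon x hx)
      · exact hTR x hx y hy hxy
    have := hmax _ hin
    rw [Finset.card_insert_of_notMem hsT] at this
    omega
  have hsub : S ⊆ T.biUnion fun t => S.filter fun s => R t s := by
    intro s hs
    obtain ⟨t, ht, hts⟩ := hcov s hs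
    exact Finset.mem_biUnion.2 ⟨t, ht, Finset.mem_filter.2 ⟨hs, hts⟩⟩
  calc S.card ≤ _ := Finset.card_le_card hsub
    _ ≤ ∑ t ∈ T, (S.filter fun s => R t s).card := Finset.card_biUnion_le
    _ ≤ ∑ _t ∈ T, N := Finset.sum_le_sum fun t ht =>
        hN t (hTS ht) _ (Finset.filter_subset _ _) fun s hs => (Finset.mem_filter.1 hs).2
    _ = T.card * N := by rw [Finset.sum_const, smul_eq_mul]
    _ ≤ M * N := Nat.mul_le_mul_right _ (hM T hTS hTR)
    _ = N * M := mul_comm _ _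

end Pool.Agent.Helper5.FM
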