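import Pool.Agent.Helper12.MM.LogLow
import Pool.Agent.Helper10.ArithSums

set_option autoImplicit false

/-!
# FM stage 2: few squares in arithmetic progressions (Gallagher's larger sieve)
-/

namespace Pool.Agent.Helper5.FM

open Finset

/-- distinct primes dividing `m` -/
theorem sum_log_dvd (P : Finset ℕ) (hP : ∀ p ∈ P, p.Prime) (m : ℤ) (hm : m ≠ 0) :
    ∑ p ∈ P.filter (fun p : ℕ => (p : ℤ) ∣ m), Real.log p ≤ Real.log |(m : ℝ)| := by
  classical
  have h1 : ∏ p ∈ P.filter (fun p : ℕ => (p : ℤ) ∣ m), p ∣ m.natAbs := by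
    refine Finset.prod_primes_dvd _ ?_ ?_
    · intro p hp
      exact (hP p (Finset.mem_filter.1 hp).1).prime
    · intro p hp
      exact Int.natCast_dvd.1 (Finset.mem_filter.1 hp).2
  have h2 : ∏ p ∈ P.filter (fun p : ℕ => (p : ℤ) ∣ m), p ≤ m.natAbs := Nat.le_of_dvd (Int.natAbs_pos.2 hm) h1
  have h3 : ∀ p ∈ P.filter (fun p : ℕ => (p : ℤ) ∣ m), (p : ℝ) ≠ 0 := by
    intro p hp
    have := (hP p (Finset.mem_filter.1 hp).1).pos
    positivity
  rw [← Real.log_prod h3, ← Int.cast_abs, Int.abs_eq_natAbs, Int.cast_natCast, ← Nat.cast_prod]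
  refine Real.log_le_log ?_ (by exact_mod_cast h2)
  have h4 : 0 < ∏ p ∈ P.filter (fun p : ℕ => (p : ℤ) ∣ m), p :=
    Finset.prod_pos fun p hp => (hP p (Finset.mem_filter.1 hp).1).pos
  exact_mod_cast h4

/-- the pairs congruent modulo `p` -/
theorem pairs_ge (S : Finset ℤ) (p : ℕ) (ν : ℝ) (hν : 0 < ν)
    (hc : ((S.image (fun s : ℤ => (s : ZMod p))).card : ℝ) ≤ ν) :
    (S.card : ℝ) ^ 2 / ν ≤ ((S ×ˢ S).filter (fun q : ℤ × ℤ => (p : ℤ) ∣ q.1 - q.2)).card := by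
  classical
  obtain ⟨g, hg⟩ : ∃ g : ℤ → ZMod p, g = fun s : ℤ => (s : ZMod p) := ⟨_, rfl⟩
  have hdvd : ∀ q : ℤ × ℤ, (p : ℤ) ∣ q.1 - q.2 ↔ g q.1 = g q.2 := by
    intro q
    rw [hg]
    show _ ↔ (q.1 : ZMod p) = (q.2 : ZMod p)
    rw [ZMod.intCast_eq_intCast_iff_dvd_sub, ← dvd_neg, neg_sub]
  have e1 : S.card = ∑ r ∈ S.image g, (S.filter (fun s => g s = r)).card :=
    Finset.card_eq_sum_card_image g S
  have e2 : ((S ×ˢ S).filter (fun q : ℤ × ℤ => (p : ℤ) ∣ q.1 - q.2)).card =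
      ∑ r ∈ S.image g, (S.filter (fun s => g s = r)).card ^ 2 := by
    rw [Finset.card_eq_sum_card_fiberwise (f := fun q : ℤ × ℤ => g q.1) (t := S.image g)]
    · refine Finset.sum_congr rfl fun r _ => ?_
      rw [sq, ← Finset.card_product]
      congr 1
      ext q
      simp only [Finset.mem_filter, Finset.mem_product, hdvd]
      constructor
      · rintro ⟨⟨⟨h1, h2⟩, h3⟩, h4⟩
        exact ⟨⟨h1, h4⟩, h2, h3 ▸ h4⟩
      · rintro ⟨⟨h1, h4⟩, h2, h3⟩
        exact ⟨⟨⟨h1, h2⟩, h4.trans h3.symm⟩, h4⟩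
    · intro q hq
      have h1 := (Finset.mem_filter.1 (Finset.mem_coe.1 hq)).1
      exact Finset.mem_coe.2 (Finset.mem_image_of_mem g (Finset.mem_product.1 h1).1)
  have e3 : (S.card : ℝ) = ∑ r ∈ S.image g, ((S.filter (fun s => g s = r)).card : ℝ) := by
    exact_mod_cast e1
  have e4 : (((S ×ˢ S).filter (fun q : ℤ × ℤ => (p : ℤ) ∣ q.1 - q.2)).card : ℝ) =
      ∑ r ∈ S.image g, ((S.filter (fun s => g s = r)).card : ℝ) ^ 2 := by
    exact_mod_cast e2
  have e5 := sq_sum_le_card_mul_sum_sq (s := S.image g)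
    (f := fun r => ((S.filter (fun s => g s = r)).card : ℝ))
  rw [← e3, ← e4] at e5
  rw [div_le_iff₀ hν, mul_comm]
  refine e5.trans ?_
  rw [← hg] at hc
  exact mul_le_mul_of_nonneg_right hc (Nat.cast_nonneg _)

/-- the larger sieve -/
theorem larger_sieve (S : Finset ℤ) (B : ℝ) (hB : 1 ≤ B)
    (hS : ∀ s ∈ S, ∀ t ∈ S, |((s - t : ℤ) : ℝ)| ≤ B) (hne : S.Nonempty) (P : Finset ℕ)
    (hP : ∀ p ∈ P, p.Prime) (ν : ℕ → ℝ) (hν : ∀ p ∈ P, 0 < ν p)
    (hc : ∀ p ∈ P, ((S.image (fun s : ℤ => (s : ZMod p))).card : ℝ) ≤ ν p) :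
    (S.card : ℝ) * (∑ p ∈ P, Real.log p / ν p - Real.log B) ≤ ∑ p ∈ P, Real.log p := by
  classical
  have hN : (0 : ℝ) < S.card := by exact_mod_cast hne.card_pos
  have hlogB : 0 ≤ Real.log B := Real.log_nonneg hB
  -- the sum over the pairs
  have h1 : ∑ q ∈ S.offDiag, ∑ p ∈ P.filter (fun p : ℕ => (p : ℤ) ∣ q.1 - q.2), Real.log p ≤
      (S.card : ℝ) ^ 2 * Real.log B := by
    have h2 : ∀ q ∈ S.offDiag, ∑ p ∈ P.filter (fun p : ℕ => (p : ℤ) ∣ q.1 - q.2), Real.log p ≤ Real.log B := by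
      intro q hq
      obtain ⟨h3, h4, h5⟩ := Finset.mem_offDiag.1 hq
      have h6 : q.1 - q.2 ≠ 0 := sub_ne_zero.2 h5
      refine (sum_log_dvd P hP _ h6).trans (Real.log_le_log ?_ (hS _ h3 _ h4))
      exact abs_pos.2 (by exact_mod_cast h6)
    refine (Finset.sum_le_card_nsmul _ _ _ h2).trans ?_
    rw [nsmul_eq_mul]
    refine mul_le_mul_of_nonneg_right ?_ hlogB
    have h7 : S.offDiag.card ≤ S.card * S.card := by
      rw [Finset.offDiag_card]
      exact Nat.sub_le _ _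
    calc (S.offDiag.card : ℝ) ≤ ((S.card * S.card : ℕ) : ℝ) := by exact_mod_cast h7
      _ = (S.card : ℝ) ^ 2 := by push_cast; ring
  have h2 : ∑ q ∈ S.offDiag, ∑ p ∈ P.filter (fun p : ℕ => (p : ℤ) ∣ q.1 - q.2), Real.log p =
      ∑ p ∈ P, ((S.offDiag.filter (fun q : ℤ × ℤ => (p : ℤ) ∣ q.1 - q.2)).card : ℝ) *
        Real.log p := by
    have e1 : ∀ q ∈ S.offDiag, ∑ p ∈ P.filter (fun p : ℕ => (p : ℤ) ∣ q.1 - q.2), Real.log p =
        ∑ p ∈ P, if (p : ℤ) ∣ q.1 - q.2 then Real.log p else 0 := fun q _ =>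
      Finset.sum_filter _ _
    rw [Finset.sum_congr rfl e1, Finset.sum_comm]
    refine Finset.sum_congr rfl fun p _ => ?_
    rw [← Finset.sum_filter, Finset.sum_const, nsmul_eq_mul]
  have h3 : ∀ p ∈ P, ((S.card : ℝ) ^ 2 / ν p - S.card) * Real.log p ≤
      ((S.offDiag.filter (fun q : ℤ × ℤ => (p : ℤ) ∣ q.1 - q.2)).card : ℝ) * Real.log p := by
    intro p hp
    refine mul_le_mul_of_nonneg_right ?_ (Real.log_natCast_nonneg p)
    have h4 := pairs_ge S p (ν p) (hν p hp) (hc p hp)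
    have h5 : ((S ×ˢ S).filter (fun q : ℤ × ℤ => (p : ℤ) ∣ q.1 - q.2)).card ≤
        (S.offDiag.filter (fun q : ℤ × ℤ => (p : ℤ) ∣ q.1 - q.2)).card + S.card := by
      have h6 : (S ×ˢ S).filter (fun q : ℤ × ℤ => (p : ℤ) ∣ q.1 - q.2) ⊆
          S.offDiag.filter (fun q : ℤ × ℤ => (p : ℤ) ∣ q.1 - q.2) ∪ S.image (fun s => (s, s)) := by
        intro q hq
        obtain ⟨h7, h8⟩ := Finset.mem_filter.1 hq
        obtain ⟨h9, h10⟩ := Finset.mem_product.1 h7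
        by_cases h11 : q.1 = q.2
        · exact Finset.mem_union_right _ (Finset.mem_image.2 ⟨q.1, h9, Prod.ext rfl h11⟩)
        · exact Finset.mem_union_left _ (Finset.mem_filter.2
            ⟨Finset.mem_offDiag.2 ⟨h9, h10, h11⟩, h8⟩)
      refine (Finset.card_le_card h6).trans ((Finset.card_union_le _ _).trans ?_)
      exact Nat.add_le_add_left Finset.card_image_le _
    have h7 : (((S ×ˢ S).filter (fun q : ℤ × ℤ => (p : ℤ) ∣ q.1 - q.2)).card : ℝ) ≤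
        (S.offDiag.filter (fun q : ℤ × ℤ => (p : ℤ) ∣ q.1 - q.2)).card + S.card := by
      exact_mod_cast h5
    linarith
  have h4 := Finset.sum_le_sum h3
  rw [← h2] at h4
  have h5 : ∑ p ∈ P, ((S.card : ℝ) ^ 2 / ν p - S.card) * Real.log p =
      (S.card : ℝ) * ((S.card : ℝ) * ∑ p ∈ P, Real.log p / ν p - ∑ p ∈ P, Real.log p) := by
    rw [mul_sub, Finset.mul_sum, Finset.mul_sum, Finset.mul_sum, ← Finset.sum_sub_distrib]
    refine Finset.sum_congr rfl fun p _ => ?_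
    ring
  rw [h5] at h4
  have h6 : (S.card : ℝ) * ((S.card : ℝ) * ∑ p ∈ P, Real.log p / ν p - ∑ p ∈ P, Real.log p) ≤
      (S.card : ℝ) * ((S.card : ℝ) * Real.log B) := by
    refine (h4.trans h1).trans (le_of_eq ?_)
    ring
  have h7 := le_of_mul_le_mul_left h6 hN
  linarith

/-- the residues of `g` with `M g + c` a square -/
theorem sq_image (p : ℕ) (hp : p.Prime) (h2 : p ≠ 2) (M c : ℤ) (hM : ¬ (p : ℤ) ∣ M) (S : Finset ℤ)
    (hS : ∀ g ∈ S, ∃ y : ℤ, y ^ 2 = M * g + c) :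
    ((S.image (fun s : ℤ => (s : ZMod p))).card : ℝ) ≤ 2 * p / 3 := by
  classical
  haveI : Fact p.Prime := ⟨hp⟩
  have hM0 : (M : ZMod p) ≠ 0 := fun h => hM ((ZMod.intCast_zmod_eq_zero_iff_dvd M p).1 h)
  have h1 : S.image (fun s : ℤ => (s : ZMod p)) ⊆
      (range (p / 2 + 1)).image (fun j : ℕ => (M : ZMod p)⁻¹ * ((j : ZMod p) ^ 2 - c)) := by
    intro r hr
    obtain ⟨g, hg, rfl⟩ := Finset.mem_image.1 hr
    obtain ⟨y, hy⟩ := hS g hg
    refine Finset.mem_image.2 ⟨(y : ZMod p).valMinAbs.natAbs, ?_, ?_⟩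
    · rw [Finset.mem_range]
      have := ZMod.natAbs_valMinAbs_le (y : ZMod p)
      omega
    · have e1 : (((y : ZMod p).valMinAbs.natAbs : ℕ) : ZMod p) ^ 2 = (y : ZMod p) ^ 2 := by
        have e2 : (((y : ZMod p).valMinAbs.natAbs : ℕ) : ℤ) ^ 2 = (y : ZMod p).valMinAbs ^ 2 := by
          rw [Int.natCast_natAbs, sq_abs]
        have e3 := congrArg (fun z : ℤ => (z : ZMod p)) e2
        simp only [Int.cast_pow, Int.cast_natCast, ZMod.coe_valMinAbs] at e3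
        exact e3
      have e4 : (y : ZMod p) ^ 2 = M * g + c := by
        have := congrArg (fun z : ℤ => (z : ZMod p)) hy
        simpa using this
      show (M : ZMod p)⁻¹ * ((((y : ZMod p).valMinAbs.natAbs : ℕ) : ZMod p) ^ 2 - c) = (g : ZMod p)
      rw [e1, e4, add_sub_cancel_right, inv_mul_cancel_left₀ hM0]
  have h3 : (S.image (fun s : ℤ => (s : ZMod p))).card ≤ p / 2 + 1 := by
    refine (Finset.card_le_card h1).trans (Finset.card_image_le.trans ?_)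
    rw [Finset.card_range]
  have h4 : 3 ≤ p := by
    have := hp.two_le
    omega
  have h5 : p % 2 = 1 := by
    rcases hp.eq_two_or_odd with h | h
    · exact absurd h h2
    · exact h
  have h6 : 3 * (p / 2 + 1) ≤ 2 * p := by omega
  have h7 : 3 * (((p / 2 + 1 : ℕ)) : ℝ) ≤ 2 * p := by exact_mod_cast h6
  have h8 : ((S.image (fun s : ℤ => (s : ZMod p))).card : ℝ) ≤ ((p / 2 + 1 : ℕ) : ℝ) := by
    exact_mod_cast h3
  linarith

/-- the primes dividing `M` -/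
theorem dvd_part (Q : ℕ) (M : ℤ) (hM : M ≠ 0) :
    ∑ p ∈ ((range (Q + 1)).filter Nat.Prime).filter (fun p : ℕ => (p : ℤ) ∣ M), Real.log p / p ≤
      Real.log (1 + Real.log |(M : ℝ)|) + 4 := by
  classical
  have hMr : 1 ≤ |(M : ℝ)| := by
    rw [← Int.cast_abs]
    exact_mod_cast Int.one_le_abs hM
  have hlM : 0 ≤ Real.log |(M : ℝ)| := Real.log_nonneg hMr
  obtain ⟨L, hL⟩ : ∃ L : ℝ, L = 1 + Real.log |(M : ℝ)| := ⟨_, rfl⟩
  rw [← hL]
  have hL1 : 1 ≤ L := by linarith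
  obtain ⟨z, hz⟩ : ∃ z : ℕ, z = ⌈L⌉₊ := ⟨_, rfl⟩
  have hz1 : 1 ≤ z := by
    rw [hz]
    exact Nat.one_le_iff_ne_zero.2 (Nat.ceil_pos.2 (by linarith)).ne'
  have hzL : L ≤ z := by rw [hz]; exact Nat.le_ceil L
  have hzU : (z : ℝ) ≤ 2 * L := by
    have := Nat.ceil_lt_add_one (show (0 : ℝ) ≤ L by linarith)
    rw [← hz] at this
    linarith
  have hz0 : (0 : ℝ) < z := by linarith
  obtain ⟨D, hD⟩ : ∃ D : Finset ℕ,
      D = ((range (Q + 1)).filter Nat.Prime).filter (fun p : ℕ => (p : ℤ) ∣ M) := ⟨_, rfl⟩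
  have hDm : ∀ p ∈ D, p.Prime ∧ (p : ℤ) ∣ M := by
    intro p hp
    rw [hD] at hp
    exact ⟨(Finset.mem_filter.1 (Finset.mem_filter.1 hp).1).2, (Finset.mem_filter.1 hp).2⟩
  rw [← hD]
  have h1 : ∀ p ∈ D, Real.log p / p ≤
      (if p ∈ (Icc 1 z).filter Nat.Prime then Real.log p / p else 0) + Real.log p / z := by
    intro p hp
    have hp0 := (hDm p hp).1.pos
    have hlp : 0 ≤ Real.log p := Real.log_natCast_nonneg p
    by_cases hpz : p ≤ z
    · rw [if_pos (Finset.mem_filter.2 ⟨Finset.mem_Icc.2 ⟨hp0, hpz⟩, (hDm p hp).1⟩)]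
      have : 0 ≤ Real.log p / z := by positivity
      linarith
    · have h2 : (z : ℝ) ≤ p := by
        have : z ≤ p := by omega
        exact_mod_cast this
      have h3 : Real.log p / p ≤ Real.log p / z := div_le_div_of_nonneg_left hlp hz0 h2
      have h4 : (0 : ℝ) ≤ (if p ∈ (Icc 1 z).filter Nat.Prime then Real.log p / p else 0) := by
        split_ifs
        · positivity
        · exact le_refl _
      linarith
  refine (Finset.sum_le_sum h1).trans ?_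
  rw [Finset.sum_add_distrib, ← Finset.sum_div]
  have h2 : ∑ p ∈ D, (if p ∈ (Icc 1 z).filter Nat.Prime then Real.log p / (p : ℝ) else 0) ≤
      Real.log z + Real.log 4 := by
    rw [← Finset.sum_filter]
    refine le_trans ?_ (Pool.Agent.Helper10.mertens_upper z hz1)
    refine Finset.sum_le_sum_of_subset_of_nonneg ?_ ?_
    · intro p hp
      exact (Finset.mem_filter.1 hp).2
    · intro p _ _
      exact div_nonneg (Real.log_natCast_nonneg p) (Nat.cast_nonneg p)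
  have h3 : ∑ p ∈ D, Real.log p ≤ Real.log |(M : ℝ)| := by
    have h4 := sum_log_dvd D (fun p hp => (hDm p hp).1) M hM
    have h5 : D.filter (fun p : ℕ => (p : ℤ) ∣ M) = D :=
      Finset.filter_true_of_mem fun p hp => (hDm p hp).2
    rw [h5] at h4
    exact h4
  have h4 : (∑ p ∈ D, Real.log p) / z ≤ 1 := by
    rw [div_le_one hz0]
    linarith
  have h5 : Real.log z ≤ Real.log 2 + Real.log L := by
    rw [← Real.log_mul (by norm_num) (by linarith)]
    exact Real.log_le_log hz0 hzU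
  have h6 : Real.log 4 = 2 * Real.log 2 := by
    rw [show (4 : ℝ) = 2 ^ 2 by norm_num, Real.log_pow]
    norm_num
  have h7 := Real.log_two_lt_d9
  linarith

/-- few squares in an arithmetic progression -/
theorem sq_in_ap : ∃ C : ℝ, 1 ≤ C ∧ ∀ (M c : ℤ) (B : ℕ), M ≠ 0 → 1 ≤ B → ∀ S : Finset ℤ,
    (∀ g ∈ S, |g| ≤ (B : ℤ) ∧ ∃ y : ℤ, y ^ 2 = M * g + c) →
    (S.card : ℝ) ≤ C * (B : ℝ) ^ (2 / 3 : ℝ) * (1 + Real.log |(M : ℝ)|) := by
  classical
  refine ⟨6 * Real.exp 10, ?_, fun M c B hM hB S hS => ?_⟩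
  · have := Real.add_one_le_exp (10 : ℝ)
    linarith
  have hMr : 1 ≤ |(M : ℝ)| := by
    rw [← Int.cast_abs]
    exact_mod_cast Int.one_le_abs hM
  have hlM : 0 ≤ Real.log |(M : ℝ)| := Real.log_nonneg hMr
  obtain ⟨L, hL⟩ : ∃ L : ℝ, L = 1 + Real.log |(M : ℝ)| := ⟨_, rfl⟩
  rw [← hL]
  have hL1 : 1 ≤ L := by linarith
  have hBr : (1 : ℝ) ≤ B := by exact_mod_cast hB
  rcases S.eq_empty_or_nonempty with h0 | hne
  · rw [h0, Finset.card_empty, Nat.cast_zero]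
    positivity
  obtain ⟨W, hW⟩ : ∃ W : ℝ, W = Real.exp 10 * (2 * (B : ℝ)) ^ (2 / 3 : ℝ) * L := ⟨_, rfl⟩
  have hB23 : (1 : ℝ) ≤ (2 * (B : ℝ)) ^ (2 / 3 : ℝ) := Real.one_le_rpow (by linarith) (by norm_num)
  have hW1 : 1 ≤ W := by
    have := Real.add_one_le_exp (10 : ℝ)
    rw [hW]
    refine one_le_mul_of_one_le_of_one_le (one_le_mul_of_one_le_of_one_le (by linarith) hB23) hL1
  obtain ⟨Q, hQ⟩ : ∃ Q : ℕ, Q = ⌈W⌉₊ := ⟨_, rfl⟩
  have hQW : W ≤ Q := by rw [hQ]; exact Nat.le_ceil W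
  have hQU : (Q : ℝ) ≤ 2 * W := by
    have := Nat.ceil_lt_add_one (show (0 : ℝ) ≤ W by linarith)
    rw [← hQ] at this
    linarith
  have hQ1 : 1 ≤ Q := by
    have h1 : (1 : ℝ) ≤ Q := hW1.trans hQW
    exact_mod_cast h1
  obtain ⟨A, hA⟩ : ∃ A : Finset ℕ, A = (range (Q + 1)).filter Nat.Prime := ⟨_, rfl⟩
  obtain ⟨P, hP⟩ : ∃ P : Finset ℕ, P = A.filter (fun p : ℕ => p ≠ 2 ∧ ¬ (p : ℤ) ∣ M) := ⟨_, rfl⟩
  have hPm : ∀ p ∈ P, p.Prime ∧ p ≠ 2 ∧ ¬ (p : ℤ) ∣ M := by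
    intro p hp
    rw [hP, hA] at hp
    exact ⟨(Finset.mem_filter.1 (Finset.mem_filter.1 hp).1).2, (Finset.mem_filter.1 hp).2⟩
  have h1 := larger_sieve S (2 * (B : ℝ)) (by linarith) (by
      intro s hs t ht
      have h2 : |s - t| ≤ 2 * (B : ℤ) := by
        have h3 := abs_le.1 (hS s hs).1
        have h4 := abs_le.1 (hS t ht).1
        rw [abs_le]
        constructor <;> linarith
      rw [← Int.cast_abs]
      exact_mod_cast h2) hne P (fun p hp => (hPm p hp).1) (fun p => 2 * (p : ℝ) / 3) (by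
      intro p hp
      have := (hPm p hp).1.pos
      positivity) (by
      intro p hp
      obtain ⟨f1, f2, f3⟩ := hPm p hp
      exact sq_image p f1 f2 M c f3 S (fun g hg => (hS g hg).2))
  have h2 : ∑ p ∈ P, Real.log p / (2 * (p : ℝ) / 3) = 3 / 2 * ∑ p ∈ P, Real.log p / p := by
    rw [Finset.mul_sum]
    refine Finset.sum_congr rfl fun p hp => ?_
    have : (p : ℝ) ≠ 0 := by
      have := (hPm p hp).1.pos
      positivity
    field_simp
  have h3 : ∑ p ∈ A, Real.log p / (p : ℝ) ≤ ∑ p ∈ P, Real.log p / (p : ℝ) + Real.log 2 / 2 +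
      ∑ p ∈ A.filter (fun p : ℕ => (p : ℤ) ∣ M), Real.log p / (p : ℝ) := by
    have h4 : A ⊆ P ∪ ({2} ∪ A.filter (fun p : ℕ => (p : ℤ) ∣ M)) := by
      intro p hp
      rw [hP]
      by_cases f1 : p = 2
      · exact Finset.mem_union_right _ (Finset.mem_union_left _ (Finset.mem_singleton.2 f1))
      · by_cases f2 : (p : ℤ) ∣ M
        · exact Finset.mem_union_right _ (Finset.mem_union_right _ (Finset.mem_filter.2 ⟨hp, f2⟩))
        · exact Finset.mem_union_left _ (Finset.mem_filter.2 ⟨hp, f1, f2⟩)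
    have hnn : ∀ p : ℕ, 0 ≤ Real.log p / (p : ℝ) := fun p =>
      div_nonneg (Real.log_natCast_nonneg p) (Nat.cast_nonneg p)
    have hun : ∀ X Y : Finset ℕ, ∑ p ∈ X ∪ Y, Real.log p / (p : ℝ) ≤
        ∑ p ∈ X, Real.log p / (p : ℝ) + ∑ p ∈ Y, Real.log p / (p : ℝ) := by
      intro X Y
      rw [← Finset.sum_union_inter]
      have : 0 ≤ ∑ p ∈ X ∩ Y, Real.log p / (p : ℝ) := Finset.sum_nonneg fun p _ => hnn p
      linarith
    have h5 := Finset.sum_le_sum_of_subset_of_nonneg h4 (fun p _ _ => hnn p)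
    have h6 := hun P ({2} ∪ A.filter (fun p : ℕ => (p : ℤ) ∣ M))
    have h7 := hun {2} (A.filter (fun p : ℕ => (p : ℤ) ∣ M))
    rw [Finset.sum_singleton] at h7
    push_cast at h7
    linarith
  have h4 := Pool.Agent.Helper12.MM.logp_low Q hQ1
  have h5 := dvd_part Q M hM
  rw [← hA] at h4 h5
  rw [← hL] at h5
  have h6 : Real.log W ≤ Real.log Q := Real.log_le_log (by linarith) hQW
  have h7 : Real.log W = 10 + 2 / 3 * Real.log (2 * (B : ℝ)) + Real.log L := by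
    rw [hW, Real.log_mul (by positivity) (by linarith), Real.log_mul (by positivity) (by positivity),
      Real.log_exp, Real.log_rpow (by linarith)]
  have h8 : ∑ p ∈ P, Real.log p ≤ Real.log 4 * Q := by
    have h9 : ∑ p ∈ P, Real.log p ≤ Chebyshev.theta Q := by
      rw [Chebyshev.theta_eq_sum_Icc]
      refine Finset.sum_le_sum_of_subset_of_nonneg ?_ (fun p _ _ => Real.log_natCast_nonneg p)
      intro p hp
      rw [hP, hA] at hp
      have f1 := Finset.mem_filter.1 (Finset.mem_filter.1 hp).1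
      have f2 := Finset.mem_range.1 f1.1
      rw [Nat.floor_natCast, Finset.mem_filter, Finset.mem_Icc]
      exact ⟨⟨Nat.zero_le _, by omega⟩, f1.2⟩
    exact h9.trans (Chebyshev.theta_le_log4_mul_x (Nat.cast_nonneg Q))
  have h9 := Real.log_two_lt_d9
  have h10 : Real.log 4 = 2 * Real.log 2 := by
    rw [show (4 : ℝ) = 2 ^ 2 by norm_num, Real.log_pow]
    norm_num
  rw [h2] at h1
  have h11 : 1 ≤ 3 / 2 * ∑ p ∈ P, Real.log p / (p : ℝ) - Real.log (2 * (B : ℝ)) := by linarith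
  have h12 : (S.card : ℝ) ≤ (S.card : ℝ) *
      (3 / 2 * ∑ p ∈ P, Real.log p / (p : ℝ) - Real.log (2 * (B : ℝ))) :=
    le_mul_of_one_le_right (Nat.cast_nonneg _) h11
  have h13 : (S.card : ℝ) ≤ Real.log 4 * Q := h12.trans (h1.trans h8)
  have h14 : (2 * (B : ℝ)) ^ (2 / 3 : ℝ) ≤ 2 * (B : ℝ) ^ (2 / 3 : ℝ) := by
    rw [Real.mul_rpow (by norm_num) (by linarith)]
    refine mul_le_mul_of_nonneg_right ?_ (by positivity)
    calc (2 : ℝ) ^ (2 / 3 : ℝ) ≤ (2 : ℝ) ^ (1 : ℝ) :=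
          Real.rpow_le_rpow_of_exponent_le (by norm_num) (by norm_num)
      _ = 2 := Real.rpow_one 2
  have h15 : (0 : ℝ) ≤ (B : ℝ) ^ (2 / 3 : ℝ) := by positivity
  have h16 : (0 : ℝ) ≤ Real.exp 10 := (Real.exp_pos 10).le
  have h17 : W ≤ Real.exp 10 * (2 * (B : ℝ) ^ (2 / 3 : ℝ)) * L := by
    rw [hW]
    exact mul_le_mul_of_nonneg_right (mul_le_mul_of_nonneg_left h14 h16) (by linarith)
  have h18 : Real.log 4 ≤ 3 / 2 := by linarith
  calc (S.card : ℝ) ≤ Real.log 4 * Q := h13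
    _ ≤ 3 / 2 * (2 * W) := mul_le_mul h18 hQU (Nat.cast_nonneg _) (by norm_num)
    _ = 3 * W := by ring
    _ ≤ 3 * (Real.exp 10 * (2 * (B : ℝ) ^ (2 / 3 : ℝ)) * L) :=
        mul_le_mul_of_nonneg_left h17 (by norm_num)
    _ = 6 * Real.exp 10 * (B : ℝ) ^ (2 / 3 : ℝ) * L := by ring

end Pool.Agent.Helper5.FM
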